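import Pool.Agent.H73.GG.Defs

/-!
# ALG: the value of a word is determined by its final state; `S` generates `vE` as a monoid.
-/

namespace GG73

/-- The element of `Ebar` attached to a state. -/
noncomputable def pv (s : St) : Ebar :=
  ⟨2 * (s.m0 : ℝ) + s.y, s.y, -(s.m0 : ℝ) - 2 * s.m1 + s.m0 * s.y,
    -(s.m0 : ℝ) / 3 - s.m1 - s.m2 + s.m0 * (s.y : ℝ) ^ 2 / 3⟩

/-- The element of the group of order two attached to a mode. -/
def md (e : Bool) : Multiplicative (ZMod 2) := Multiplicative.ofAdd (if e then 1 else 0)

theorem act_false (g : E) : (act (md false) g : Ebar) = (g : Ebar) := by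
  have : md false = 1 := rfl
  rw [this]; simp

theorem act_true (g : E) : (act (md true) g : Ebar) = Ebar.sigma (g : Ebar) := by
  have h : ¬ (md true = 1) := by decide
  have : act (md true) = sigmaE := by
    show (if md true = 1 then (1 : MulAut E) else sigmaE) = sigmaE
    rw [if_neg h]
  rw [this]; rfl

theorem vA_left : (vA.left : Ebar) = Ebar.a := rfl
theorem vB_left : (vB.left : Ebar) = Ebar.b := rfl
theorem vT_left : (vT.left : Ebar) = 1 := rfl
theorem vA_right : vA.right = 1 := rfl
theorem vB_right : vB.right = 1 := rfl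
theorem vT_right : vT.right = md true := rfl

theorem vC_eq : (vA * vB)⁻¹ = SemidirectProduct.inl ((⟨Ebar.a, a_mem⟩ * ⟨Ebar.b, b_mem⟩ : E)⁻¹) := by
  rw [vA, vB, ← map_mul, ← map_inv]

theorem vC_left : ((vA * vB)⁻¹.left : Ebar) = (Ebar.a * Ebar.b)⁻¹ := by
  rw [vC_eq]; rfl

theorem vC_right : ((vA * vB)⁻¹).right = 1 := by
  rw [vC_eq]; rfl

theorem val_spec (w : List Lt) : (((w.map gen).prod).left : Ebar) = pv (run w s0) ∧
    ((w.map gen).prod).right = md (run w s0).e := by
  induction w using List.reverseRecOn with
  | nil =>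
    constructor
    · simp [run, s0, pv, Ebar.one_def]
    · rfl
  | append_singleton w l ih =>
    obtain ⟨ih1, ih2⟩ := ih
    have hr : run (w ++ [l]) s0 = step (run w s0) l := by simp [run]
    have hp : ((w ++ [l]).map gen).prod = (w.map gen).prod * gen l := by simp
    rw [hr, hp, SemidirectProduct.mul_left, SemidirectProduct.mul_right, ih2]
    generalize run w s0 = s at *
    obtain ⟨e, y, m0, m1, m2⟩ := s
    rw [Subgroup.coe_mul, ih1]
    cases e
    · simp only at ih1 ⊢
      rw [act_false]
      cases l
      · simp only [gen, vA_left, vA_right]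
        constructor
        · ext <;> simp [Ebar.mul_def, pv, step, St.bump, Ebar.a] <;> ring
        · simp [step]
      · simp only [gen, vB_left, vB_right]
        constructor
        · ext <;> simp [Ebar.mul_def, pv, step, St.bump, Ebar.b] <;> ring
        · simp [step]
      · simp only [gen, vC_left, vC_right]
        constructor
        · ext <;> simp [Ebar.mul_def, Ebar.inv_def, pv, step, St.bump, Ebar.b, Ebar.a] <;> ring
        · simp [step, St.bump]
      · simp only [gen, vT_left, vT_right]
        constructor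
        · simp [pv, step]
        · simp only [step]; decide
    · simp only at ih1 ⊢
      rw [act_true]
      cases l
      · simp only [gen, vA_left, vA_right]
        constructor
        · ext <;> simp [Ebar.mul_def, pv, step, St.bump, Ebar.a, Ebar.sigma_apply] <;> ring
        · simp [step]
      · simp only [gen, vB_left, vB_right]
        constructor
        · ext <;> simp [Ebar.mul_def, pv, step, St.bump, Ebar.b, Ebar.sigma_apply] <;> ring
        · simp [step]
      · simp only [gen, vC_left, vC_right]
        constructor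
        · ext <;> simp [Ebar.mul_def, Ebar.inv_def, pv, step, St.bump, Ebar.b, Ebar.a,
            Ebar.sigma_apply] <;> ring
        · simp [step, St.bump]
      · simp only [gen, vT_left, vT_right]
        constructor
        · simp [pv, step]
        · simp only [step]; decide

/-- The element of `vE` attached to a state: first component
`(x, y, A, B) = (2 m0 + y, y, -m0 - 2 m1 + m0 y, -m0/3 - m1 - m2 + m0 y^2 / 3)`. -/
theorem prod_eq_of_run_eq {w w' : List Lt} (h : run w s0 = run w' s0) :
    (w.map gen).prod = (w'.map gen).prod := by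
  obtain ⟨h1, h2⟩ := val_spec w
  obtain ⟨h3, h4⟩ := val_spec w'
  apply SemidirectProduct.ext
  · apply Subtype.ext
    rw [h1, h3, h]
  · rw [h2, h4, h]

theorem mem_S_iff (x : vE) : x ∈ S ↔ ∃ l : Lt, gen l = x := by
  constructor
  · rintro (h | h | h | h)
    · exact ⟨.a, h.symm⟩
    · exact ⟨.b, h.symm⟩
    · exact ⟨.c, h.symm⟩
    · exact ⟨.t, (Set.mem_singleton_iff.mp h).symm⟩
  · rintro ⟨l, rfl⟩
    cases l <;> simp [S, gen]

theorem closure_S : Submonoid.closure S = ⊤ := by
  have hA : vA ∈ Submonoid.closure S := Submonoid.subset_closure (by simp [S])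
  have hB : vB ∈ Submonoid.closure S := Submonoid.subset_closure (by simp [S])
  have hC : (vA * vB)⁻¹ ∈ Submonoid.closure S := Submonoid.subset_closure (by simp [S])
  have hT : vT ∈ Submonoid.closure S := Submonoid.subset_closure (by simp [S])
  have hA' : vA⁻¹ ∈ Submonoid.closure S := by
    have : vA⁻¹ = vB * (vA * vB)⁻¹ := by group
    rw [this]; exact Submonoid.mul_mem _ hB hC
  have hB' : vB⁻¹ ∈ Submonoid.closure S := by
    have : vB⁻¹ = (vA * vB)⁻¹ * vA := by group
    rw [this]; exact Submonoid.mul_mem _ hC hA
  have hE : ∀ (g : Ebar) (hg : g ∈ E),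
      (SemidirectProduct.inl (⟨g, hg⟩ : E) : vE) ∈ Submonoid.closure S ∧
      (SemidirectProduct.inl (⟨g, hg⟩ : E) : vE)⁻¹ ∈ Submonoid.closure S := by
    intro g hg
    refine Subgroup.closure_induction
      (p := fun g hg => (SemidirectProduct.inl (⟨g, hg⟩ : E) : vE) ∈ Submonoid.closure S ∧
      (SemidirectProduct.inl (⟨g, hg⟩ : E) : vE)⁻¹ ∈ Submonoid.closure S) ?_ ?_ ?_ ?_ hg
    · intro x hx
      rcases hx with rfl | hx
      · exact ⟨hA, hA'⟩
      · rw [Set.mem_singleton_iff] at hx
        subst hx
        have e : (SemidirectProduct.inl (⟨Ebar.b, b_mem⟩ : E) : vE) = vB := rfl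
        rw [e]
        exact ⟨hB, hB'⟩
    · have : (SemidirectProduct.inl (⟨1, E.one_mem⟩ : E) : vE) = 1 := rfl
      constructor
      · exact this ▸ Submonoid.one_mem _
      · rw [this, inv_one]; exact Submonoid.one_mem _
    · intro x y hx hy h1 h2
      have : (SemidirectProduct.inl (⟨x * y, E.mul_mem hx hy⟩ : E) : vE) =
          SemidirectProduct.inl (⟨x, hx⟩ : E) * SemidirectProduct.inl (⟨y, hy⟩ : E) := by
        rw [← map_mul]; rfl
      constructor
      · rw [this]; exact Submonoid.mul_mem _ h1.1 h2.1
      · rw [this, mul_inv_rev]; exact Submonoid.mul_mem _ h2.2 h1.2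
    · intro x hx h1
      have : (SemidirectProduct.inl (⟨x⁻¹, E.inv_mem hx⟩ : E) : vE) =
          (SemidirectProduct.inl (⟨x, hx⟩ : E))⁻¹ := by
        rw [← map_inv]; rfl
      constructor
      · rw [this]; exact h1.2
      · rw [this, inv_inv]; exact h1.1
  rw [eq_top_iff]
  intro x _
  rw [← SemidirectProduct.inl_left_mul_inr_right x]
  refine Submonoid.mul_mem _ (hE _ _).1 ?_
  have h2 : ∀ s : Multiplicative (ZMod 2), s = 1 ∨ s = Multiplicative.ofAdd 1 := by decide
  rcases h2 x.right with h | h
  · rw [h, map_one]; exact Submonoid.one_mem _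
  · rw [h]; exact hT

end GG73
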