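import Pool.Agent.H73.GG.Defs

/-!
# CHG: the number of letter changes
-/

namespace GG73

/-- the potential of a last letter and a last vertical direction -/
def chgPhi : Lt → Option Bool → ℕ
  | .a, _ => 1
  | .b, _ => 0
  | .c, o => if o = some true then 0 else 1
  | .t, _ => 2

/-- the last vertical direction after a letter -/
def chgUpd : Lt → Option Bool → Option Bool
  | .a, _ => some true
  | .b, _ => some false
  | .c, o => o
  | .t, o => o

theorem chg_aux (w : List Lt) : ∀ (l : Lt) (o : Option Bool),
    chg (l :: w) ≤ 3 * (prs (l :: w) + w.count .t + trn w (chgUpd l o)) +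
      chgPhi l (chgUpd l o) := by
  induction w with
  | nil =>
    intro l o
    simp [chg]
  | cons l' w ih =>
    intro l o
    have h := ih l' (chgUpd l o)
    cases l <;> cases l' <;>
      simp only [chg, prs, trn, chgUpd, chgPhi, List.count_cons] at h ⊢ <;>
      (rcases o with _ | _ | _) <;> simp at h ⊢ <;> omega

theorem chg_le (w : List Lt) :
    chg w ≤ 3 * (prs w + w.count .t + trn w none) + 2 := by
  cases w with
  | nil => simp [chg]
  | cons l w =>
    have h := chg_aux w l none
    have h1 : chgPhi l (chgUpd l none) ≤ 2 := by cases l <;> simp [chgPhi, chgUpd]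
    have h2 : trn w (chgUpd l none) ≤ trn (l :: w) none := by
      cases l <;> simp [trn, chgUpd]
    have h3 : w.count .t ≤ (l :: w).count .t := by
      rw [List.count_cons]
      omega
    omega

end GG73
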