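import Pool.Agent.H73.GG.Defs

/-!
# CNT: sums over levels of the counts of a word
-/

namespace GG73

open Finset

theorem run_y (w : List Lt) (s : St) : (run w s).y = ht w s.y := by
  induction w generalizing s with
  | nil => rfl
  | cons l w ih =>
    have h : run (l :: w) s = run w (step s l) := rfl
    rw [h, ih]
    cases l <;> rfl

theorem mn_le (w : List Lt) (y : ℤ) : mn w y ≤ y := by
  induction w generalizing y with
  | nil => exact le_refl _
  | cons l w ih =>
    cases l with
    | a => exact min_le_left _ _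
    | b => exact min_le_left _ _
    | c => exact ih y
    | t => exact ih y

theorem le_mx (w : List Lt) (y : ℤ) : y ≤ mx w y := by
  induction w generalizing y with
  | nil => exact le_refl _
  | cons l w ih =>
    cases l with
    | a => exact le_max_left _ _
    | b => exact le_max_left _ _
    | c => exact ih y
    | t => exact ih y

theorem mn_le_ht (w : List Lt) (y : ℤ) : mn w y ≤ ht w y := by
  induction w generalizing y with
  | nil => exact le_refl _
  | cons l w ih =>
    cases l with
    | a => exact (min_le_right _ _).trans (ih _)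
    | b => exact (min_le_right _ _).trans (ih _)
    | c => exact ih y
    | t => exact ih y

theorem ht_le_mx (w : List Lt) (y : ℤ) : ht w y ≤ mx w y := by
  induction w generalizing y with
  | nil => exact le_refl _
  | cons l w ih =>
    cases l with
    | a => exact (ih _).trans (le_max_right _ _)
    | b => exact (ih _).trans (le_max_right _ _)
    | c => exact ih y
    | t => exact ih y

theorem cnt_up_a (w : List Lt) (e : Bool) (y z : ℤ) :
    up (.a :: w) e y z = (if y = z then 1 else 0) + up w e (y + 1) z := by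
  unfold up
  by_cases h : y = z <;> cases e <;> simp [cnt, h] <;> ring

theorem cnt_up_b (w : List Lt) (e : Bool) (y z : ℤ) :
    up (.b :: w) e y z = up w e (y - 1) z := by
  simp [up, cnt]

theorem cnt_up_c (w : List Lt) (e : Bool) (y z : ℤ) :
    up (.c :: w) e y z = up w e y z := by
  simp [up, cnt]

theorem cnt_up_t (w : List Lt) (e : Bool) (y z : ℤ) :
    up (.t :: w) e y z = up w (!e) y z := by
  simp [up, cnt]

theorem cnt_dn_a (w : List Lt) (e : Bool) (y z : ℤ) :
    dn (.a :: w) e y z = dn w e (y + 1) z := by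
  simp [dn, cnt]

theorem cnt_dn_b (w : List Lt) (e : Bool) (y z : ℤ) :
    dn (.b :: w) e y z = (if y - 1 = z then 1 else 0) + dn w e (y - 1) z := by
  unfold dn
  by_cases h : y - 1 = z <;> cases e <;> simp [cnt, h] <;> ring

theorem cnt_dn_c (w : List Lt) (e : Bool) (y z : ℤ) :
    dn (.c :: w) e y z = dn w e y z := by
  simp [dn, cnt]

theorem cnt_dn_t (w : List Lt) (e : Bool) (y z : ℤ) :
    dn (.t :: w) e y z = dn w (!e) y z := by
  simp [dn, cnt]

theorem cnt_sc_a (w : List Lt) (e : Bool) (y z : ℤ) :
    sc (.a :: w) e y z = sc w e (y + 1) z := by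
  simp [sc, cnt]

theorem cnt_sc_b (w : List Lt) (e : Bool) (y z : ℤ) :
    sc (.b :: w) e y z = sc w e (y - 1) z := by
  simp [sc, cnt]

theorem cnt_sc_c (w : List Lt) (e : Bool) (y z : ℤ) :
    sc (.c :: w) e y z = (if y = z then 1 else 0) + sc w e y z := by
  unfold sc
  by_cases h : y = z <;> cases e <;> simp [cnt, h] <;> ring

theorem cnt_sc_t (w : List Lt) (e : Bool) (y z : ℤ) :
    sc (.t :: w) e y z = sc w (!e) y z := by
  simp [sc, cnt]

theorem cnt_dep_a (w : List Lt) (e : Bool) (y z : ℤ) :
    dep (.a :: w) e y z = (if y = z then (if e then -1 else 0) else 0) + dep w e (y + 1) z := by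
  unfold dep
  by_cases h : y = z <;> cases e <;> simp [cnt, h] <;> ring

theorem cnt_dep_b (w : List Lt) (e : Bool) (y z : ℤ) :
    dep (.b :: w) e y z
      = (if y - 1 = z then (if e then 0 else 1) else 0) + dep w e (y - 1) z := by
  unfold dep
  by_cases h : y - 1 = z <;> cases e <;> simp [cnt, h] <;> ring

theorem cnt_dep_c (w : List Lt) (e : Bool) (y z : ℤ) :
    dep (.c :: w) e y z = (if y = z then (if e then 1 else -1) else 0) + dep w e y z := by
  unfold dep
  by_cases h : y = z <;> cases e <;> simp [cnt, h] <;> ring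

theorem cnt_dep_t (w : List Lt) (e : Bool) (y z : ℤ) :
    dep (.t :: w) e y z = dep w (!e) y z := by
  simp [dep, cnt]

theorem cnt_sum_ite (m M y r : ℤ) (F : ℤ → ℤ) (h1 : m ≤ y) (h2 : y ≤ M) :
    ∑ z ∈ Icc m M, (if y = z then r else 0) * F z = r * F y := by
  rw [Finset.sum_eq_single y]
  · simp
  · intro z _ hz
    rw [if_neg (fun h => hz h.symm), zero_mul]
  · intro h
    exact absurd (Finset.mem_Icc.mpr ⟨h1, h2⟩) h

theorem cnt_sum_ite1 (m M y r : ℤ) (h1 : m ≤ y) (h2 : y ≤ M) :
    ∑ z ∈ Icc m M, (if y = z then r else 0) = r := by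
  have := cnt_sum_ite m M y r (fun _ => 1) h1 h2
  simpa using this

theorem cnt_mn_a {w : List Lt} {y m : ℤ} (h : m ≤ mn (.a :: w) y) : m ≤ y ∧ m ≤ mn w (y + 1) :=
  ⟨h.trans (min_le_left _ _), h.trans (min_le_right _ _)⟩

theorem cnt_mn_b {w : List Lt} {y m : ℤ} (h : m ≤ mn (.b :: w) y) :
    m ≤ y - 1 ∧ m ≤ mn w (y - 1) :=
  ⟨(h.trans (min_le_right _ _)).trans (mn_le _ _), h.trans (min_le_right _ _)⟩

theorem cnt_mx_a {w : List Lt} {y M : ℤ} (h : mx (.a :: w) y ≤ M) : y ≤ M ∧ mx w (y + 1) ≤ M :=
  ⟨(le_max_left _ _).trans h, (le_max_right _ _).trans h⟩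

theorem cnt_mx_b {w : List Lt} {y M : ℤ} (h : mx (.b :: w) y ≤ M) :
    y - 1 ≤ M ∧ mx w (y - 1) ≤ M :=
  ⟨(le_mx w (y - 1)).trans ((le_max_right _ _).trans h), (le_max_right _ _).trans h⟩

/-- The length is the number of `t` plus the sum over all levels of the other letters. -/
theorem len_eq (w : List Lt) (e : Bool) (y m M : ℤ) (hm : m ≤ mn w y) (hM : mx w y ≤ M) :
    (w.length : ℤ) = w.count .t + ∑ z ∈ Icc m M, (up w e y z + dn w e y z + sc w e y z) := by
  induction w generalizing e y with
  | nil => simp [up, dn, sc, cnt]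
  | cons l w ih =>
    cases l with
    | a =>
      obtain ⟨h1, h2⟩ := cnt_mn_a hm
      obtain ⟨h3, h4⟩ := cnt_mx_a hM
      have h := ih e (y + 1) h2 h4
      have hs := cnt_sum_ite1 m M y 1 h1 h3
      simp only [cnt_up_a, cnt_dn_a, cnt_sc_a, List.length_cons, Nat.cast_add, Nat.cast_one]
      have e1 : ∑ z ∈ Icc m M, ((if y = z then (1 : ℤ) else 0) + up w e (y + 1) z
          + dn w e (y + 1) z + sc w e (y + 1) z)
          = ∑ z ∈ Icc m M, (if y = z then (1 : ℤ) else 0)
            + ∑ z ∈ Icc m M, (up w e (y + 1) z + dn w e (y + 1) z + sc w e (y + 1) z) := by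
        rw [← Finset.sum_add_distrib]
        apply Finset.sum_congr rfl
        intro z _
        ring
      rw [e1, hs, List.count_cons_of_ne (by decide)]
      linarith
    | b =>
      obtain ⟨h1, h2⟩ := cnt_mn_b hm
      obtain ⟨h3, h4⟩ := cnt_mx_b hM
      have h := ih e (y - 1) h2 h4
      have hs := cnt_sum_ite1 m M (y - 1) 1 h1 h3
      simp only [cnt_up_b, cnt_dn_b, cnt_sc_b, List.length_cons, Nat.cast_add, Nat.cast_one]
      have e1 : ∑ z ∈ Icc m M, (up w e (y - 1) z + ((if y - 1 = z then (1 : ℤ) else 0)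
          + dn w e (y - 1) z) + sc w e (y - 1) z)
          = ∑ z ∈ Icc m M, (if y - 1 = z then (1 : ℤ) else 0)
            + ∑ z ∈ Icc m M, (up w e (y - 1) z + dn w e (y - 1) z + sc w e (y - 1) z) := by
        rw [← Finset.sum_add_distrib]
        apply Finset.sum_congr rfl
        intro z _
        ring
      rw [e1, hs, List.count_cons_of_ne (by decide)]
      linarith
    | c =>
      have h2 : m ≤ mn w y := hm
      have h4 : mx w y ≤ M := hM
      have h := ih e y h2 h4
      have hs := cnt_sum_ite1 m M y 1 (h2.trans (mn_le _ _)) ((le_mx _ _).trans h4)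
      simp only [cnt_up_c, cnt_dn_c, cnt_sc_c, List.length_cons, Nat.cast_add, Nat.cast_one]
      have e1 : ∑ z ∈ Icc m M, (up w e y z + dn w e y z + ((if y = z then (1 : ℤ) else 0)
          + sc w e y z))
          = ∑ z ∈ Icc m M, (if y = z then (1 : ℤ) else 0)
            + ∑ z ∈ Icc m M, (up w e y z + dn w e y z + sc w e y z) := by
        rw [← Finset.sum_add_distrib]
        apply Finset.sum_congr rfl
        intro z _
        ring
      rw [e1, hs, List.count_cons_of_ne (by decide)]
      linarith
    | t =>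
      have h2 : m ≤ mn w y := hm
      have h4 : mx w y ≤ M := hM
      have h := ih (!e) y h2 h4
      simp only [cnt_up_t, cnt_dn_t, cnt_sc_t, List.length_cons, Nat.cast_add, Nat.cast_one]
      rw [List.count_cons_self]
      push_cast
      linarith

theorem ab_eq (w : List Lt) (e : Bool) (y m M : ℤ) (hm : m ≤ mn w y) (hM : mx w y ≤ M) :
    ((w.count .a : ℤ) + w.count .b) = ∑ z ∈ Icc m M, (up w e y z + dn w e y z) := by
  induction w generalizing e y with
  | nil => simp [up, dn, cnt]
  | cons l w ih =>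
    cases l with
    | a =>
      obtain ⟨h1, h2⟩ := cnt_mn_a hm
      obtain ⟨h3, h4⟩ := cnt_mx_a hM
      have h := ih e (y + 1) h2 h4
      have hs := cnt_sum_ite1 m M y 1 h1 h3
      simp only [cnt_up_a, cnt_dn_a]
      have e1 : ∑ z ∈ Icc m M, ((if y = z then (1 : ℤ) else 0) + up w e (y + 1) z
          + dn w e (y + 1) z)
          = ∑ z ∈ Icc m M, (if y = z then (1 : ℤ) else 0)
            + ∑ z ∈ Icc m M, (up w e (y + 1) z + dn w e (y + 1) z) := by
        rw [← Finset.sum_add_distrib]
        apply Finset.sum_congr rfl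
        intro z _
        ring
      rw [e1, hs, List.count_cons_self, List.count_cons_of_ne (by decide)]
      push_cast
      linarith
    | b =>
      obtain ⟨h1, h2⟩ := cnt_mn_b hm
      obtain ⟨h3, h4⟩ := cnt_mx_b hM
      have h := ih e (y - 1) h2 h4
      have hs := cnt_sum_ite1 m M (y - 1) 1 h1 h3
      simp only [cnt_up_b, cnt_dn_b]
      have e1 : ∑ z ∈ Icc m M, (up w e (y - 1) z + ((if y - 1 = z then (1 : ℤ) else 0)
          + dn w e (y - 1) z))
          = ∑ z ∈ Icc m M, (if y - 1 = z then (1 : ℤ) else 0)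
            + ∑ z ∈ Icc m M, (up w e (y - 1) z + dn w e (y - 1) z) := by
        rw [← Finset.sum_add_distrib]
        apply Finset.sum_congr rfl
        intro z _
        ring
      rw [e1, hs, List.count_cons_self, List.count_cons_of_ne (by decide)]
      push_cast
      linarith
    | c =>
      have h := ih e y hm hM
      simp only [cnt_up_c, cnt_dn_c]
      rw [List.count_cons_of_ne (by decide), List.count_cons_of_ne (by decide)]
      exact h
    | t =>
      have h := ih (!e) y hm hM
      simp only [cnt_up_t, cnt_dn_t]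
      rw [List.count_cons_of_ne (by decide), List.count_cons_of_ne (by decide)]
      exact h

/-- general deposit sums -/
theorem cnt_dep_sum (F : ℤ → ℤ) (q : St → ℤ)
    (hq : ∀ (s : St) (l : Lt), q (step s l) = q s + match l with
      | .a => (if s.e then -1 else 0) * F s.y
      | .b => (if s.e then 0 else 1) * F (s.y - 1)
      | .c => (if s.e then 1 else -1) * F s.y
      | .t => 0)
    (w : List Lt) (s : St) (m M : ℤ) (hm : m ≤ mn w s.y) (hM : mx w s.y ≤ M) :
    q (run w s) = q s + ∑ z ∈ Icc m M, dep w s.e s.y z * F z := by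
  induction w generalizing s with
  | nil => simp [dep, cnt, run]
  | cons l w ih =>
    have hrun : run (l :: w) s = run w (step s l) := rfl
    rw [hrun]
    cases l with
    | a =>
      obtain ⟨h1, h2⟩ := cnt_mn_a hm
      obtain ⟨h3, h4⟩ := cnt_mx_a hM
      have h := ih (step s .a) h2 h4
      rw [h, hq s .a]
      simp only [cnt_dep_a, add_mul, Finset.sum_add_distrib]
      rw [cnt_sum_ite m M s.y _ F h1 h3, add_assoc]
      rfl
    | b =>
      obtain ⟨h1, h2⟩ := cnt_mn_b hm
      obtain ⟨h3, h4⟩ := cnt_mx_b hM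
      have h := ih (step s .b) h2 h4
      rw [h, hq s .b]
      simp only [cnt_dep_b, add_mul, Finset.sum_add_distrib]
      rw [cnt_sum_ite m M (s.y - 1) _ F h1 h3, add_assoc]
      rfl
    | c =>
      have h2 : m ≤ mn w s.y := hm
      have h4 : mx w s.y ≤ M := hM
      have h := ih (step s .c) h2 h4
      rw [h, hq s .c]
      simp only [cnt_dep_c, add_mul, Finset.sum_add_distrib]
      rw [cnt_sum_ite m M s.y _ F (h2.trans (mn_le _ _)) ((le_mx _ _).trans h4), add_assoc]
      rfl
    | t =>
      have h := ih (step s .t) hm hM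
      rw [h, hq s .t]
      simp only [cnt_dep_t, add_zero]
      rfl

theorem run_m0 (w : List Lt) (s : St) (m M : ℤ) (hm : m ≤ mn w s.y) (hM : mx w s.y ≤ M) :
    (run w s).m0 = s.m0 + ∑ z ∈ Icc m M, dep w s.e s.y z := by
  have h := cnt_dep_sum (fun _ => 1) (fun s => s.m0) (by
    intro s l
    cases l <;> simp [step, St.bump]) w s m M hm hM
  simpa using h

theorem run_m1 (w : List Lt) (s : St) (m M : ℤ) (hm : m ≤ mn w s.y) (hM : mx w s.y ≤ M) :
    (run w s).m1 = s.m1 + ∑ z ∈ Icc m M, dep w s.e s.y z * z := by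
  exact cnt_dep_sum (fun z => z) (fun s => s.m1) (by
    intro s l
    cases l <;> simp [step, St.bump]) w s m M hm hM

theorem run_m2 (w : List Lt) (s : St) (m M : ℤ) (hm : m ≤ mn w s.y) (hM : mx w s.y ≤ M) :
    (run w s).m2 = s.m2 + ∑ z ∈ Icc m M, dep w s.e s.y z * z ^ 2 := by
  exact cnt_dep_sum (fun z => z ^ 2) (fun s => s.m2) (by
    intro s l
    cases l <;> simp [step, St.bump]) w s m M hm hM

end GG73
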