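import Pool.Agent.H73.GG.Defs

/-!
# CNTW: words with few letter changes
-/

namespace GG73

theorem block_form (w : List Lt) : ∀ (x : Lt) (D : ℕ), chg (x :: w) ≤ D →
    ∃ (k : ℕ) (L : List (Lt × ℕ)), L.length = D ∧ k ≤ w.length ∧
      (∀ p ∈ L, p.2 ≤ (x :: w).length) ∧
      x :: w = List.replicate (k + 1) x ++ L.flatMap (fun p => List.replicate p.2 p.1) := by
  induction w with
  | nil =>
    intro x D _
    refine ⟨0, List.replicate D (x, 0), by simp, by simp, ?_, ?_⟩
    · intro p hp
      rw [List.eq_of_mem_replicate hp]
      simp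
    · have : (List.replicate D (x, 0)).flatMap (fun p : Lt × ℕ => List.replicate p.2 p.1) = [] := by
        rw [List.flatMap_eq_nil_iff]
        intro p hp
        rw [List.eq_of_mem_replicate hp]
        simp
      rw [this]
      simp
  | cons y w ih =>
    intro x D hD
    by_cases hxy : x = y
    · subst hxy
      have h1 : chg (x :: w) ≤ D := by
        simpa [chg] using hD
      obtain ⟨k, L, hL, hk, hp, he⟩ := ih x D h1
      refine ⟨k + 1, L, hL, by simpa using hk, ?_, ?_⟩
      · intro p hpL
        have := hp p hpL
        simp only [List.length_cons] at this ⊢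
        omega
      · rw [he, List.replicate_succ (n := k + 1)]
        rfl
    · have h1 : 1 + chg (y :: w) ≤ D := by
        simpa [chg, hxy] using hD
      obtain ⟨D', rfl⟩ : ∃ D', D = D' + 1 := ⟨D - 1, by omega⟩
      obtain ⟨k, L, hL, hk, hp, he⟩ := ih y D' (by omega)
      refine ⟨0, (y, k + 1) :: L, by simp [hL], by simp, ?_, ?_⟩
      · intro p hpL
        rcases List.mem_cons.1 hpL with rfl | hpL
        · simp only [List.length_cons]
          omega
        · have := hp p hpL
          simp only [List.length_cons] at this ⊢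
          omega
      · rw [List.flatMap_cons, ← he]
        simp

theorem count_words (D n : ℕ) :
    {w : List Lt | w.length ≤ n ∧ chg w ≤ D}.Finite ∧
      {w : List Lt | w.length ≤ n ∧ chg w ≤ D}.ncard ≤ (4 * (n + 1)) ^ (D + 1) := by
  classical
  set F : List.Vector (Lt × Fin (n + 1)) (D + 1) → List Lt :=
    fun v => v.1.flatMap (fun p => List.replicate p.2.1 p.1) with hF
  have hsub : {w : List Lt | w.length ≤ n ∧ chg w ≤ D} ⊆ F '' Set.univ := by
    rintro w ⟨hn, hD⟩
    cases w with
    | nil =>
      refine ⟨⟨List.replicate (D + 1) (.a, 0), by simp⟩, Set.mem_univ _, ?_⟩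
      simp only [hF]
      rw [List.flatMap_eq_nil_iff]
      intro p hp
      rw [List.eq_of_mem_replicate hp]
      simp
    | cons x w =>
      obtain ⟨k, L, hL, hk, hp, he⟩ := block_form w x D hD
      have key : ∀ M : List (Lt × ℕ), (∀ p ∈ M, p.2 ≤ n) →
          ∃ M' : List (Lt × Fin (n + 1)), M'.length = M.length ∧
            M'.flatMap (fun p => List.replicate p.2.1 p.1) =
              M.flatMap (fun p => List.replicate p.2 p.1) := by
        intro M
        induction M with
        | nil => intro _; exact ⟨[], rfl, rfl⟩
        | cons q M ihM =>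
          intro hq
          obtain ⟨M', h1, h2⟩ := ihM (fun p hp => hq p (List.mem_cons_of_mem _ hp))
          have hq1 := hq q List.mem_cons_self
          refine ⟨(q.1, ⟨q.2, by omega⟩) :: M', by simp [h1], ?_⟩
          rw [List.flatMap_cons, List.flatMap_cons, h2]
      obtain ⟨M', h1, h2⟩ := key ((x, k + 1) :: L) (by
        intro p hpL
        rcases List.mem_cons.1 hpL with rfl | hpL
        · simp only [List.length_cons] at hn
          show k + 1 ≤ n
          omega
        · exact (hp p hpL).trans hn)
      refine ⟨⟨M', by rw [h1]; simp [hL]⟩, Set.mem_univ _, ?_⟩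
      simp only [hF]
      rw [h2, he, List.flatMap_cons]
  have hfin : (F '' Set.univ).Finite := Set.Finite.image F Set.finite_univ
  refine ⟨hfin.subset hsub, ?_⟩
  calc {w : List Lt | w.length ≤ n ∧ chg w ≤ D}.ncard ≤ (F '' Set.univ).ncard :=
        Set.ncard_le_ncard hsub hfin
    _ ≤ (Set.univ : Set (List.Vector (Lt × Fin (n + 1)) (D + 1))).ncard :=
        Set.ncard_image_le Set.finite_univ
    _ = (4 * (n + 1)) ^ (D + 1) := by
        rw [Set.ncard_univ, Nat.card_eq_fintype_card, card_vector, Fintype.card_prod,
          Fintype.card_fin]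
        congr 1

end GG73
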