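import Pool.Agent.H73.GG.Defs

/-!
# CROSS: crossings of edges, and the number of adjacent pairs `(c,a)`, `(b,c)` per level
-/

namespace GG73

open Finset

theorem up_nil (e : Bool) (y z : ℤ) : up [] e y z = 0 := by simp [up, cnt]

theorem dn_nil (e : Bool) (y z : ℤ) : dn [] e y z = 0 := by simp [dn, cnt]

theorem up_a (w : List Lt) (e : Bool) (y z : ℤ) :
    up (.a :: w) e y z = (if y = z then 1 else 0) + up w e (y + 1) z := by
  cases e <;> by_cases h : y = z <;> simp [up, cnt, h] <;> ring

theorem up_b (w : List Lt) (e : Bool) (y z : ℤ) :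
    up (.b :: w) e y z = up w e (y - 1) z := by
  simp [up, cnt]

theorem up_c (w : List Lt) (e : Bool) (y z : ℤ) :
    up (.c :: w) e y z = up w e y z := by
  simp [up, cnt]

theorem up_t (w : List Lt) (e : Bool) (y z : ℤ) :
    up (.t :: w) e y z = up w (!e) y z := by
  simp [up, cnt]

theorem dn_a (w : List Lt) (e : Bool) (y z : ℤ) :
    dn (.a :: w) e y z = dn w e (y + 1) z := by
  simp [dn, cnt]

theorem dn_b (w : List Lt) (e : Bool) (y z : ℤ) :
    dn (.b :: w) e y z = (if y - 1 = z then 1 else 0) + dn w e (y - 1) z := by
  cases e <;> by_cases h : y - 1 = z <;> simp [dn, cnt, h] <;> ring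

theorem dn_c (w : List Lt) (e : Bool) (y z : ℤ) :
    dn (.c :: w) e y z = dn w e y z := by
  simp [dn, cnt]

theorem dn_t (w : List Lt) (e : Bool) (y z : ℤ) :
    dn (.t :: w) e y z = dn w (!e) y z := by
  simp [dn, cnt]

theorem up_nonneg (w : List Lt) (e : Bool) (y z : ℤ) : 0 ≤ up w e y z := by
  unfold up; positivity

theorem dn_nonneg (w : List Lt) (e : Bool) (y z : ℤ) : 0 ≤ dn w e y z := by
  unfold dn; positivity

theorem cross_le_mx (w : List Lt) (y : ℤ) : y ≤ mx w y := by
  induction w generalizing y with
  | nil => simp [mx]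
  | cons l w ih => cases l <;> simp [mx, ih]

theorem cross_mn_le (w : List Lt) (y : ℤ) : mn w y ≤ y := by
  induction w generalizing y with
  | nil => simp [mn]
  | cons l w ih => cases l <;> simp [mn, ih]

theorem flow (w : List Lt) (e : Bool) (y z : ℤ) :
    up w e y z - dn w e y z = (if y ≤ z ∧ z < ht w y then 1 else 0)
      - (if ht w y ≤ z ∧ z < y then 1 else 0) := by
  induction w generalizing e y with
  | nil =>
    simp only [up_nil, dn_nil, ht]
    split_ifs <;> omega
  | cons l w ih =>
    cases l
    · have h := ih e (y + 1)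
      simp only [up_a, dn_a, ht]
      split_ifs at h ⊢ <;> omega
    · have h := ih e (y - 1)
      simp only [up_b, dn_b, ht]
      split_ifs at h ⊢ <;> omega
    · have h := ih e y
      simp only [up_c, dn_c, ht]
      exact h
    · have h := ih (!e) y
      simp only [up_t, dn_t, ht]
      exact h

theorem up_pos (w : List Lt) (e : Bool) (y z : ℤ) (h1 : y ≤ z) (h2 : z < mx w y) :
    1 ≤ up w e y z := by
  induction w generalizing e y with
  | nil =>
    simp only [mx] at h2
    omega
  | cons l w ih =>
    cases l
    · simp only [mx] at h2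
      rw [up_a]
      have h0 := up_nonneg w e (y + 1) z
      by_cases hy : y = z
      · rw [if_pos hy]; omega
      · rw [if_neg hy]
        have := ih e (y + 1) (by omega) (by omega)
        omega
    · simp only [mx] at h2
      rw [up_b]
      exact ih e (y - 1) (by omega) (by omega)
    · simp only [mx] at h2
      rw [up_c]
      exact ih e y h1 h2
    · simp only [mx] at h2
      rw [up_t]
      exact ih (!e) y h1 h2

theorem dn_pos (w : List Lt) (e : Bool) (y z : ℤ) (h1 : mn w y ≤ z) (h2 : z < y) :
    1 ≤ dn w e y z := by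
  induction w generalizing e y with
  | nil =>
    simp only [mn] at h1
    omega
  | cons l w ih =>
    cases l
    · simp only [mn] at h1
      rw [dn_a]
      exact ih e (y + 1) (by omega) (by omega)
    · simp only [mn] at h1
      rw [dn_b]
      have h0 := dn_nonneg w e (y - 1) z
      by_cases hy : y - 1 = z
      · rw [if_pos hy]; omega
      · rw [if_neg hy]
        have := ih e (y - 1) (by omega) (by omega)
        omega
    · simp only [mn] at h1
      rw [dn_c]
      exact ih e y h1 h2
    · simp only [mn] at h1
      rw [dn_t]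
      exact ih (!e) y h1 h2

theorem up_top (w : List Lt) (e : Bool) (y z : ℤ) (h : mx w y ≤ z) : up w e y z = 0 := by
  induction w generalizing e y with
  | nil => exact up_nil e y z
  | cons l w ih =>
    cases l
    · simp only [mx] at h
      rw [up_a, ih e (y + 1) (by omega)]
      have := cross_le_mx w (y + 1)
      rw [if_neg (by omega)]
      omega
    · simp only [mx] at h
      rw [up_b, ih e (y - 1) (by omega)]
    · simp only [mx] at h
      rw [up_c, ih e y h]
    · simp only [mx] at h
      rw [up_t, ih (!e) y h]

theorem dn_top (w : List Lt) (e : Bool) (y z : ℤ) (h : mx w y ≤ z) : dn w e y z = 0 := by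
  induction w generalizing e y with
  | nil => exact dn_nil e y z
  | cons l w ih =>
    cases l
    · simp only [mx] at h
      rw [dn_a, ih e (y + 1) (by omega)]
    · simp only [mx] at h
      rw [dn_b, ih e (y - 1) (by omega)]
      rw [if_neg (by omega)]
      omega
    · simp only [mx] at h
      rw [dn_c, ih e y h]
    · simp only [mx] at h
      rw [dn_t, ih (!e) y h]

/-- number of adjacent pairs `(c,a)` in mode `e0` at level `z` -/
def pca (e0 : Bool) (z : ℤ) : List Lt → Bool → ℤ → ℕ
  | [], _, _ => 0
  | .a :: w, e, y => pca e0 z w e (y + 1)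
  | .b :: w, e, y => pca e0 z w e (y - 1)
  | .c :: w, e, y => (if w.head? = some .a ∧ e = e0 ∧ y = z then 1 else 0) + pca e0 z w e y
  | .t :: w, e, y => pca e0 z w (!e) y

/-- number of adjacent pairs `(b,c)` in mode `e0` at level `z` -/
def pbc (e0 : Bool) (z : ℤ) : List Lt → Bool → ℤ → ℕ
  | [], _, _ => 0
  | .a :: w, e, y => pbc e0 z w e (y + 1)
  | .b :: w, e, y =>
      (if w.head? = some .c ∧ e = e0 ∧ y - 1 = z then 1 else 0) + pbc e0 z w e (y - 1)
  | .c :: w, e, y => pbc e0 z w e y
  | .t :: w, e, y => pbc e0 z w (!e) y

theorem pca_le_c (e0 : Bool) (z : ℤ) (w : List Lt) (e : Bool) (y : ℤ) :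
    pca e0 z w e y ≤ cnt .c e0 z w e y := by
  induction w generalizing e y with
  | nil => simp [pca]
  | cons l w ih =>
    cases l
    · simpa [pca, cnt] using ih e (y + 1)
    · simpa [pca, cnt] using ih e (y - 1)
    · have h := ih e y
      simp only [pca, cnt, true_and]
      split_ifs with h1 h2 <;> first | omega | exact absurd h1.2 h2
    · simpa [pca, cnt] using ih (!e) y

theorem pbc_le_b (e0 : Bool) (z : ℤ) (w : List Lt) (e : Bool) (y : ℤ) :
    pbc e0 z w e y ≤ cnt .b e0 z w e y := by
  induction w generalizing e y with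
  | nil => simp [pbc]
  | cons l w ih =>
    cases l
    · simpa [pbc, cnt] using ih e (y + 1)
    · have h := ih e (y - 1)
      simp only [pbc, cnt, true_and]
      split_ifs with h1 h2 <;> first | omega | exact absurd h1.2 h2
    · simpa [pbc, cnt] using ih e y
    · simpa [pbc, cnt] using ih (!e) y

theorem pca_le_a' (e0 : Bool) (z : ℤ) (w : List Lt) (e : Bool) (y : ℤ) :
    (if w.head? = some .a ∧ e = e0 ∧ y = z then 1 else 0) + pca e0 z w e y
      ≤ cnt .a e0 z w e y := by
  induction w generalizing e y with
  | nil => simp [pca]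
  | cons l w ih =>
    cases l
    · have h := ih e (y + 1)
      simp only [pca, cnt, List.head?_cons, true_and]
      omega
    · have h := ih e (y - 1)
      simp [pca, cnt]
      omega
    · have h := ih e y
      simp [pca, cnt]
      exact h
    · have h := ih (!e) y
      simp [pca, cnt]
      omega

theorem pbc_le_c' (e0 : Bool) (z : ℤ) (w : List Lt) (e : Bool) (y : ℤ) :
    (if w.head? = some .c ∧ e = e0 ∧ y = z then 1 else 0) + pbc e0 z w e y
      ≤ cnt .c e0 z w e y := by
  induction w generalizing e y with
  | nil => simp [pbc]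
  | cons l w ih =>
    cases l
    · have h := ih e (y + 1)
      simp [pbc, cnt]
      omega
    · have h := ih e (y - 1)
      simp [pbc, cnt]
      exact h
    · have h := ih e y
      simp only [pbc, cnt, List.head?_cons, true_and]
      omega
    · have h := ih (!e) y
      simp [pbc, cnt]
      omega

theorem pca_le_a (e0 : Bool) (z : ℤ) (w : List Lt) (e : Bool) (y : ℤ) :
    pca e0 z w e y ≤ cnt .a e0 z w e y :=
  le_trans (Nat.le_add_left _ _) (pca_le_a' e0 z w e y)

theorem pbc_le_c (e0 : Bool) (z : ℤ) (w : List Lt) (e : Bool) (y : ℤ) :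
    pbc e0 z w e y ≤ cnt .c e0 z w e y :=
  le_trans (Nat.le_add_left _ _) (pbc_le_c' e0 z w e y)

theorem prs_a (w : List Lt) : prs (.a :: w) = prs w := by
  cases w <;> simp [prs]

theorem prs_t (w : List Lt) : prs (.t :: w) = prs w := by
  cases w <;> simp [prs]

theorem prs_b (w : List Lt) : prs (.b :: w) = (if w.head? = some .c then 1 else 0) + prs w := by
  cases w with
  | nil => simp [prs]
  | cons l w => cases l <;> simp [prs]

theorem prs_c (w : List Lt) : prs (.c :: w) = (if w.head? = some .a then 1 else 0) + prs w := by
  cases w with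
  | nil => simp [prs]
  | cons l w => cases l <;> simp [prs]

theorem sum_ind (m M y : ℤ) (h1 : m ≤ y) (h2 : y ≤ M) (P : Prop) [Decidable P] (e : Bool) :
    ∑ z ∈ Icc m M, (((if P ∧ e = false ∧ y = z then 1 else 0 : ℕ) : ℤ)
      + ((if P ∧ e = true ∧ y = z then 1 else 0 : ℕ) : ℤ)) = (if P then 1 else 0 : ℕ) := by
  have : ∀ z ∈ Icc m M, (((if P ∧ e = false ∧ y = z then 1 else 0 : ℕ) : ℤ)
      + ((if P ∧ e = true ∧ y = z then 1 else 0 : ℕ) : ℤ))
      = if y = z then ((if P then 1 else 0 : ℕ) : ℤ) else 0 := by
    intro z _
    cases e <;> by_cases hP : P <;> by_cases hz : y = z <;> simp [hP, hz]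
  rw [Finset.sum_congr rfl this, Finset.sum_ite_eq, if_pos (Finset.mem_Icc.2 ⟨h1, h2⟩)]

theorem prs_eq_sum (w : List Lt) (e : Bool) (y m M : ℤ) (hm : m ≤ mn w y) (hM : mx w y ≤ M) :
    (prs w : ℤ) = ∑ z ∈ Icc m M,
      (((pca false z w e y : ℤ) + (pca true z w e y : ℤ))
        + ((pbc false z w e y : ℤ) + (pbc true z w e y : ℤ))) := by
  induction w generalizing e y with
  | nil => simp [prs, pca, pbc]
  | cons l w ih =>
    have hy := cross_mn_le w y
    have hy' := cross_le_mx w y
    cases l
    · simp only [mn] at hm
      simp only [mx] at hM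
      rw [prs_a, ih e (y + 1) (by omega) (by omega)]
      simp only [pca, pbc]
    · simp only [mn] at hm
      simp only [mx] at hM
      have h3 := cross_mn_le w (y - 1)
      have h4 := sum_ind m M (y - 1) (by omega) (by omega) (w.head? = some .c) e
      rw [prs_b]
      push_cast [ih e (y - 1) (by omega) (by omega)]
      push_cast at h4
      rw [← h4, ← Finset.sum_add_distrib]
      refine Finset.sum_congr rfl fun z _ => ?_
      simp only [pca, pbc]
      push_cast
      ring
    · simp only [mn] at hm
      simp only [mx] at hM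
      have h4 := sum_ind m M y (by omega) (by omega) (w.head? = some .a) e
      rw [prs_c]
      push_cast [ih e y (by omega) (by omega)]
      push_cast at h4
      rw [← h4, ← Finset.sum_add_distrib]
      refine Finset.sum_congr rfl fun z _ => ?_
      simp only [pca, pbc]
      push_cast
      ring
    · simp only [mn] at hm
      simp only [mx] at hM
      rw [prs_t, ih (!e) y (by omega) (by omega)]
      simp only [pca, pbc]

/-- Every adjacent pair `(c,a)` or `(b,c)` lives in one mode and at one level. (Proof: define the
number of such pairs with given mode and level, by recursion; show that it is at most the number of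
letters `c` and at most the number of letters `a`, respectively `b`, with that mode and level.) -/
theorem prs_le (w : List Lt) (e : Bool) (y m M : ℤ) (hm : m ≤ mn w y) (hM : mx w y ≤ M) :
    (prs w : ℤ) ≤ ∑ z ∈ Icc m M,
      (min (cnt .c false z w e y : ℤ) (cnt .a false z w e y)
        + min (cnt .b false z w e y : ℤ) (cnt .c false z w e y)
        + min (cnt .c true z w e y : ℤ) (cnt .a true z w e y)
        + min (cnt .b true z w e y : ℤ) (cnt .c true z w e y)) := by
  rw [prs_eq_sum w e y m M hm hM]
  refine Finset.sum_le_sum fun z _ => ?_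
  have h1 := pca_le_c false z w e y
  have h2 := pca_le_a false z w e y
  have h3 := pca_le_c true z w e y
  have h4 := pca_le_a true z w e y
  have h5 := pbc_le_b false z w e y
  have h6 := pbc_le_c false z w e y
  have h7 := pbc_le_b true z w e y
  have h8 := pbc_le_c true z w e y
  omega

end GG73
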