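import Mathlib

/-!
# MP_cfee4b_al: geodesic growth of the virtually Engel group

Basic definitions: the real Engel group `Ebar`, its subgroup `E`, the group `vE`, the generating set
`S`, geodesic words, and the combinatorial model (letters, states, counts).
-/

namespace GG73

/-! ## The groups -/

/-- The real Engel group: triples `(u, A, B)` with `u = (x, y)`. -/
@[ext] structure Ebar where
  x : ℝ
  y : ℝ
  A : ℝ
  B : ℝ

namespace Ebar

noncomputable instance : Mul Ebar :=
  ⟨fun g h =>
    ⟨g.x + h.x, g.y + h.y, g.A + h.A + 1 / 2 * (g.x * h.y - g.y * h.x),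
      g.B + h.B + g.y * h.A
        + 1 / 3 * (2 * g.y + h.y) * (1 / 2 * (g.x * h.y - g.y * h.x))⟩⟩

instance : One Ebar := ⟨⟨0, 0, 0, 0⟩⟩

noncomputable instance : Inv Ebar := ⟨fun g => ⟨-g.x, -g.y, -g.A, -g.B + g.y * g.A⟩⟩

theorem mul_def (g h : Ebar) : g * h =
    ⟨g.x + h.x, g.y + h.y, g.A + h.A + 1 / 2 * (g.x * h.y - g.y * h.x),
      g.B + h.B + g.y * h.A
        + 1 / 3 * (2 * g.y + h.y) * (1 / 2 * (g.x * h.y - g.y * h.x))⟩ := rfl

theorem one_def : (1 : Ebar) = ⟨0, 0, 0, 0⟩ := rfl

theorem inv_def (g : Ebar) : g⁻¹ = ⟨-g.x, -g.y, -g.A, -g.B + g.y * g.A⟩ := rfl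

noncomputable instance : Group Ebar :=
  Group.ofLeftAxioms
    (by
      intro g h k
      simp only [mul_def]
      ext <;> dsimp only <;> ring)
    (by
      intro g
      simp only [mul_def, one_def]
      ext <;> dsimp only <;> ring)
    (by
      intro g
      simp only [mul_def, one_def, inv_def]
      ext <;> dsimp only <;> ring)

/-- The generator `a = ((1,1),0,0)`. -/
def a : Ebar := ⟨1, 1, 0, 0⟩

/-- The generator `b = ((1,-1),0,0)`. -/
def b : Ebar := ⟨1, -1, 0, 0⟩

/-- The automorphism `σ(u,A,B) = ((-u_x,u_y),-A,-B)`. -/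
noncomputable def sigma : Ebar ≃* Ebar where
  toFun g := ⟨-g.x, g.y, -g.A, -g.B⟩
  invFun g := ⟨-g.x, g.y, -g.A, -g.B⟩
  left_inv g := by simp
  right_inv g := by simp
  map_mul' g h := by
    simp only [mul_def]
    ext <;> dsimp only <;> ring

theorem sigma_apply (g : Ebar) : sigma g = ⟨-g.x, g.y, -g.A, -g.B⟩ := rfl

theorem sigma_sigma (g : Ebar) : sigma (sigma g) = g := by
  simp [sigma_apply]

theorem sigma_a : sigma a = b⁻¹ := by
  simp [sigma_apply, inv_def, a, b]

theorem sigma_b : sigma b = a⁻¹ := by
  simp [sigma_apply, inv_def, a, b]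

end Ebar

/-- The group `E`, the subgroup of `Ebar` generated by `a` and `b`. -/
noncomputable def E : Subgroup Ebar := Subgroup.closure {Ebar.a, Ebar.b}

theorem a_mem : Ebar.a ∈ E := Subgroup.subset_closure (by simp)

theorem b_mem : Ebar.b ∈ E := Subgroup.subset_closure (by simp)

theorem sigma_mem {g : Ebar} (hg : g ∈ E) : Ebar.sigma g ∈ E := by
  refine Subgroup.closure_induction (p := fun g _ => Ebar.sigma g ∈ E) ?_ ?_ ?_ ?_ hg
  · intro x hx
    rcases hx with rfl | hx
    · rw [Ebar.sigma_a]
      exact E.inv_mem b_mem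
    · rw [Set.mem_singleton_iff] at hx
      subst hx
      rw [Ebar.sigma_b]
      exact E.inv_mem a_mem
  · rw [map_one]
    exact E.one_mem
  · intro x y _ _ hx hy
    rw [map_mul]
    exact E.mul_mem hx hy
  · intro x _ hx
    rw [map_inv]
    exact E.inv_mem hx

/-- The restriction of `σ` to `E`. -/
noncomputable def sigmaE : MulAut E where
  toFun g := ⟨Ebar.sigma g.1, sigma_mem g.2⟩
  invFun g := ⟨Ebar.sigma g.1, sigma_mem g.2⟩
  left_inv g := Subtype.ext (Ebar.sigma_sigma g.1)
  right_inv g := Subtype.ext (Ebar.sigma_sigma g.1)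
  map_mul' g h := Subtype.ext (map_mul Ebar.sigma g.1 h.1)

theorem sigmaE_mul_self : sigmaE * sigmaE = 1 := by
  apply MulEquiv.ext
  intro g
  exact Subtype.ext (Ebar.sigma_sigma g.1)

/-- The action of the group of order two on `E` through `σ`. -/
noncomputable def act : Multiplicative (ZMod 2) →* MulAut E where
  toFun s := if s = 1 then 1 else sigmaE
  map_one' := by simp
  map_mul' s u := by
    have key : ∀ s u : Multiplicative (ZMod 2), s ≠ 1 → u ≠ 1 → s * u = 1 := by decide
    by_cases hs : s = 1
    · simp [hs]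
    · by_cases hu : u = 1
      · simp [hu]
      · rw [key s u hs hu]
        simp [hs, hu, sigmaE_mul_self]

/-- The group `vE = E ⋊ ⟨t⟩`. -/
abbrev vE := E ⋊[act] Multiplicative (ZMod 2)

/-- `a` as an element of `vE`. -/
noncomputable def vA : vE := SemidirectProduct.inl ⟨Ebar.a, a_mem⟩

/-- `b` as an element of `vE`. -/
noncomputable def vB : vE := SemidirectProduct.inl ⟨Ebar.b, b_mem⟩

/-- `t` as an element of `vE`. -/
noncomputable def vT : vE := SemidirectProduct.inr (Multiplicative.ofAdd 1)

/-- The generating set `S = {a, b, (ab)⁻¹, t}`. -/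
def S : Set vE := {vA, vB, (vA * vB)⁻¹, vT}

/-! ## Geodesic words and geodesic growth, for an arbitrary group and subset -/

/-- `l` is a word over `T` representing its product, of minimal length among all words over `T`
representing the same element. -/
def IsGeodesic {G : Type*} [Group G] (T : Set G) (l : List G) : Prop :=
  (∀ x ∈ l, x ∈ T) ∧
    ∀ l' : List G, (∀ x ∈ l', x ∈ T) → l'.prod = l.prod → l.length ≤ l'.length

/-- The set of geodesic words of length at most `n`. -/
def geodesicWords {G : Type*} [Group G] (T : Set G) (n : ℕ) : Set (List G) :=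
  {l | IsGeodesic T l ∧ l.length ≤ n}

/-- The geodesic growth function: the number of geodesic words of length at most `n`. -/
noncomputable def geodesicGrowth {G : Type*} [Group G] (T : Set G) (n : ℕ) : ℕ :=
  (geodesicWords T n).ncard

/-! ## The combinatorial model -/

/-- Letters. -/
inductive Lt
  | a | b | c | t
  deriving DecidableEq

instance : Fintype Lt := ⟨{Lt.a, Lt.b, Lt.c, Lt.t}, by intro x; cases x <;> simp⟩

/-- The generator attached to a letter. -/
noncomputable def gen : Lt → vE
  | .a => vA
  | .b => vB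
  | .c => (vA * vB)⁻¹
  | .t => vT

/-- States: mode, height, and three moments of the deposit. -/
@[ext] structure St where
  e : Bool
  y : ℤ
  m0 : ℤ
  m1 : ℤ
  m2 : ℤ

/-- Deposit the amount `r` at level `z`. -/
def St.bump (s : St) (r z : ℤ) : St :=
  ⟨s.e, s.y, s.m0 + r, s.m1 + r * z, s.m2 + r * z ^ 2⟩

/-- Effect of a letter on a state. -/
def step : St → Lt → St
  | s, .a => ⟨s.e, s.y + 1, (s.bump (if s.e then -1 else 0) s.y).m0,
      (s.bump (if s.e then -1 else 0) s.y).m1, (s.bump (if s.e then -1 else 0) s.y).m2⟩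
  | s, .b => ⟨s.e, s.y - 1, (s.bump (if s.e then 0 else 1) (s.y - 1)).m0,
      (s.bump (if s.e then 0 else 1) (s.y - 1)).m1, (s.bump (if s.e then 0 else 1) (s.y - 1)).m2⟩
  | s, .c => s.bump (if s.e then 1 else -1) s.y
  | s, .t => ⟨!s.e, s.y, s.m0, s.m1, s.m2⟩

/-- Effect of a word on a state. -/
def run (w : List Lt) (s : St) : St := w.foldl step s

/-- The initial state. -/
def s0 : St := ⟨false, 0, 0, 0, 0⟩

/-- `cnt l e0 z w e y`: number of letters `l` of the word `w` (read from mode `e` and height `y`)
which are used in mode `e0` at level `z`; the level of a vertical letter is the lower end of its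
edge. -/
def cnt (l : Lt) (e0 : Bool) (z : ℤ) : List Lt → Bool → ℤ → ℕ
  | [], _, _ => 0
  | .a :: w, e, y => (if l = .a ∧ e = e0 ∧ y = z then 1 else 0) + cnt l e0 z w e (y + 1)
  | .b :: w, e, y => (if l = .b ∧ e = e0 ∧ y - 1 = z then 1 else 0) + cnt l e0 z w e (y - 1)
  | .c :: w, e, y => (if l = .c ∧ e = e0 ∧ y = z then 1 else 0) + cnt l e0 z w e y
  | .t :: w, e, y => cnt l e0 z w (!e) y

/-- final height -/
def ht : List Lt → ℤ → ℤ
  | [], y => y
  | .a :: w, y => ht w (y + 1)
  | .b :: w, y => ht w (y - 1)
  | .c :: w, y => ht w y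
  | .t :: w, y => ht w y

/-- minimal height -/
def mn : List Lt → ℤ → ℤ
  | [], y => y
  | .a :: w, y => min y (mn w (y + 1))
  | .b :: w, y => min y (mn w (y - 1))
  | .c :: w, y => mn w y
  | .t :: w, y => mn w y

/-- maximal height -/
def mx : List Lt → ℤ → ℤ
  | [], y => y
  | .a :: w, y => max y (mx w (y + 1))
  | .b :: w, y => max y (mx w (y - 1))
  | .c :: w, y => mx w y
  | .t :: w, y => mx w y

/-- upward crossings of the edge `(z, z+1)` -/
def up (w : List Lt) (e : Bool) (y z : ℤ) : ℤ := cnt .a false z w e y + cnt .a true z w e y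

/-- downward crossings of the edge `(z, z+1)` -/
def dn (w : List Lt) (e : Bool) (y z : ℤ) : ℤ := cnt .b false z w e y + cnt .b true z w e y

/-- stationary letters at level `z` -/
def sc (w : List Lt) (e : Bool) (y z : ℤ) : ℤ := cnt .c false z w e y + cnt .c true z w e y

/-- total deposit at level `z` -/
def dep (w : List Lt) (e : Bool) (y z : ℤ) : ℤ :=
  cnt .b false z w e y + cnt .c true z w e y - cnt .a true z w e y - cnt .c false z w e y

/-- number of adjacent pairs `(c,a)` or `(b,c)` -/
def prs : List Lt → ℕ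
  | .c :: .a :: w => 1 + prs (.a :: w)
  | .b :: .c :: w => 1 + prs (.c :: w)
  | _ :: w => prs w
  | [] => 0

/-- number of turning points of the height path; the second argument is the last vertical
direction (`some true` = up) -/
def trn : List Lt → Option Bool → ℕ
  | [], _ => 0
  | .a :: w, o => (if o = some false then 1 else 0) + trn w (some true)
  | .b :: w, o => (if o = some true then 1 else 0) + trn w (some false)
  | .c :: w, o => trn w o
  | .t :: w, o => trn w o

/-- number of adjacent unequal letters -/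
def chg : List Lt → ℕ
  | x :: y :: w => (if x = y then 0 else 1) + chg (y :: w)
  | _ => 0

/-- left end of the interval of free deposits at level `z`, for a canonical path from `0` to `Y`
with maximum `M` -/
def lo (M Y z : ℤ) : ℤ := if z = M then 0 else if Y ≤ z ∧ z < 0 then 0 else -1

/-- right end of the interval of free deposits at level `z` -/
def hi (M Y z : ℤ) : ℤ := if z = M then 0 else if 0 ≤ z ∧ z < Y then 0 else 1

/-- distance of the integer `v` from the interval `[l,u]` -/
def dI (l u v : ℤ) : ℤ := max 0 (max (l - v) (v - u))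

/-- distance of the real number `v` from the interval `[l,u]` -/
noncomputable def dR (l u v : ℝ) : ℝ := max 0 (max (l - v) (v - u))

/-- the pattern `L H L H` with thresholds `y1, y2, y3` (`true` = low) -/
def pat (y1 y2 y3 z : ℤ) : Bool := decide (z < y1 ∨ (y2 ≤ z ∧ z < y3))

end GG73
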