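import Pool.Agent.H73.GG.Defs

/-!
# LPX: an extreme maximiser of the third moment
-/

namespace GG73

open Finset

theorem lpx_dR_affine (l u v : ℝ) (hlu : l ≤ u) (h1 : v ≠ l) (h2 : v ≠ u) :
    ∃ σ : ℝ, ∃ δ : ℝ, 0 < δ ∧ ∀ x, |x| ≤ δ → dR l u (v + x) = dR l u v + σ * x := by
  rcases lt_or_gt_of_ne h1 with h | h
  · refine ⟨-1, l - v, by linarith, fun x hx => ?_⟩
    have := abs_le.1 hx
    unfold dR
    rw [max_eq_left (a := l - (v + x)) (by linarith), max_eq_left (a := l - v) (by linarith),
      max_eq_right (by linarith), max_eq_right (by linarith)]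
    ring
  · rcases lt_or_gt_of_ne h2 with h' | h'
    · refine ⟨0, min (v - l) (u - v), by
        apply lt_min <;> linarith, fun x hx => ?_⟩
      have h3 := abs_le.1 (hx.trans (min_le_left _ _))
      have h4 := abs_le.1 (hx.trans (min_le_right _ _))
      unfold dR
      rw [max_eq_left (a := 0) (max_le (by linarith) (by linarith)),
        max_eq_left (a := 0) (max_le (by linarith) (by linarith))]
      ring
    · refine ⟨1, v - u, by linarith, fun x hx => ?_⟩
      have := abs_le.1 hx
      unfold dR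
      rw [max_eq_right (a := l - (v + x)) (by linarith), max_eq_right (a := l - v) (by linarith),
        max_eq_right (by linarith), max_eq_right (by linarith)]
      ring

theorem lpx_dR_mono (l u v x : ℝ) (h1 : l ≤ v - x) (h2 : 0 ≤ x) :
    dR l u (v + -x) ≤ dR l u v := by
  unfold dR
  apply max_le (le_max_left _ _)
  apply max_le
  · exact le_trans (by linarith) (le_max_left _ _)
  · exact le_trans (by linarith) ((le_max_right _ _).trans (le_max_right _ _))

theorem lpx_dR_anti (l u v x : ℝ) (h1 : v + x ≤ u) (h2 : 0 ≤ x) :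
    dR l u (v + x) ≤ dR l u v := by
  unfold dR
  apply max_le (le_max_left _ _)
  apply max_le
  · exact le_trans (by linarith) ((le_max_left _ _).trans (le_max_right _ _))
  · exact le_trans (by linarith) (le_max_left _ _)

theorem lpx_dR_nonneg (l u v : ℝ) : 0 ≤ dR l u v := le_max_left _ _

/-- The feasible set. -/
def lpxP (m M : ℤ) (l u : ℤ → ℝ) (f : ℤ → ℝ) : Set (ℤ → ℝ) :=
  {h | (∀ z, z ∉ Icc m M → h z = 0) ∧ (∑ z ∈ Icc m M, h z = ∑ z ∈ Icc m M, f z) ∧
      (∑ z ∈ Icc m M, h z * z = ∑ z ∈ Icc m M, f z * z) ∧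
      (∑ z ∈ Icc m M, h z * z ^ 2 = ∑ z ∈ Icc m M, f z * z ^ 2) ∧
      (∑ z ∈ Icc m M, dR (l z) (u z) (h z) ≤ ∑ z ∈ Icc m M, dR (l z) (u z) (f z))}

theorem lpxP_compact (m M : ℤ) (l u : ℤ → ℝ) (hl : ∀ z, -1 ≤ l z)
    (hu : ∀ z, u z ≤ 1) (f : ℤ → ℝ) : IsCompact (lpxP m M l u f) := by
  set C := ∑ z ∈ Icc m M, dR (l z) (u z) (f z) with hC
  have hC0 : 0 ≤ C := Finset.sum_nonneg fun z _ => lpx_dR_nonneg _ _ _
  have hK : IsCompact (Set.pi Set.univ (fun _ : ℤ => Set.Icc (-(C + 1)) (C + 1))) :=
    isCompact_univ_pi fun _ => isCompact_Icc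
  refine hK.of_isClosed_subset ?_ ?_
  · unfold lpxP
    simp only [Set.ofPred_and]
    refine IsClosed.inter ?_ (IsClosed.inter ?_ (IsClosed.inter ?_ (IsClosed.inter ?_ ?_)))
    · simp only [Set.ofPred_forall]
      refine isClosed_iInter fun z => isClosed_iInter fun _ => ?_
      exact isClosed_eq (continuous_apply z) continuous_const
    · exact isClosed_eq (by fun_prop) continuous_const
    · exact isClosed_eq (by fun_prop) continuous_const
    · exact isClosed_eq (by fun_prop) continuous_const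
    · refine isClosed_le ?_ continuous_const
      unfold dR
      fun_prop
  · intro h hh
    obtain ⟨h0, _, _, _, h4⟩ := hh
    intro z _
    by_cases hz : z ∈ Icc m M
    · have h5 : dR (l z) (u z) (h z) ≤ C :=
        le_trans (Finset.single_le_sum (f := fun z => dR (l z) (u z) (h z))
          (fun z _ => lpx_dR_nonneg _ _ _) hz) h4
      have h6 : l z - h z ≤ C :=
        le_trans ((le_max_left _ _).trans (le_max_right _ _)) h5
      have h7 : h z - u z ≤ C :=
        le_trans ((le_max_right _ _).trans (le_max_right _ _)) h5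
      have := hl z
      have := hu z
      constructor <;> linarith
    · rw [h0 z hz]
      constructor <;> linarith

/-- The compact convex set of functions on `[m, M]` with the moments `0, 1, 2` of `f` and cost at
most the cost of `f`; take an extreme point of the set of maximisers of the third moment. -/
theorem lp_exists (m M : ℤ) (l u : ℤ → ℝ) (hlu : ∀ z, l z ≤ u z) (hl : ∀ z, -1 ≤ l z)
    (hu : ∀ z, u z ≤ 1) (f : ℤ → ℝ) :
    ∃ h : ℤ → ℝ, (∑ z ∈ Icc m M, h z = ∑ z ∈ Icc m M, f z) ∧
      (∑ z ∈ Icc m M, h z * z = ∑ z ∈ Icc m M, f z * z) ∧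
      (∑ z ∈ Icc m M, h z * z ^ 2 = ∑ z ∈ Icc m M, f z * z ^ 2) ∧
      (∑ z ∈ Icc m M, dR (l z) (u z) (h z) ≤ ∑ z ∈ Icc m M, dR (l z) (u z) (f z)) ∧
      (∀ y1 ∈ Icc m M, ∀ y2 ∈ Icc m M, ∀ y3 ∈ Icc m M, ∀ y4 ∈ Icc m M, y1 < y2 → y2 < y3 →
        y3 < y4 → l y1 < h y1 → h y2 < u y2 → l y3 < h y3 → h y4 < u y4 → False) ∧
      ((Icc m M).filter (fun z => h z ≠ l z ∧ h z ≠ u z)).card ≤ 5 := by
  have hPc := lpxP_compact m M l u hl hu f
  have hPn : (lpxP m M l u f).Nonempty := by
    refine ⟨fun z => if z ∈ Icc m M then f z else 0, ?_, ?_, ?_, ?_, ?_⟩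
    · intro z hz
      exact if_neg hz
    · exact Finset.sum_congr rfl fun z hz => by simp only [if_pos hz]
    · exact Finset.sum_congr rfl fun z hz => by simp only [if_pos hz]
    · exact Finset.sum_congr rfl fun z hz => by simp only [if_pos hz]
    · exact le_of_eq (Finset.sum_congr rfl fun z hz => by simp only [if_pos hz])
  let T : (ℤ → ℝ) → ℝ := fun h => ∑ z ∈ Icc m M, h z * (z : ℝ) ^ 3
  have hT : Continuous T := by
    show Continuous fun h : ℤ → ℝ => ∑ z ∈ Icc m M, h z * (z : ℝ) ^ 3
    fun_prop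
  obtain ⟨g0, hg0, hmax⟩ := hPc.exists_isMaxOn hPn hT.continuousOn
  have hmax' : ∀ g ∈ lpxP m M l u f, T g ≤ T g0 := fun g hg => hmax hg
  have hAc : IsCompact (lpxP m M l u f ∩ {h | T h = T g0}) :=
    hPc.inter_right (isClosed_eq hT continuous_const)
  obtain ⟨h, hh⟩ := hAc.extremePoints_nonempty ⟨g0, hg0, rfl⟩
  rw [mem_extremePoints] at hh
  obtain ⟨⟨hhP, hhT⟩, hext⟩ := hh
  have hhP' := hhP
  obtain ⟨h0, h1, h2, h3, h4⟩ := hhP'
  refine ⟨h, h1, h2, h3, h4, ?_, ?_⟩
  · intro y1 m1 y2 m2 y3 m3 y4 m4 l12 l23 l34 c1 c2 c3 c4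
    have q12 : (y1 : ℝ) < y2 := by exact_mod_cast l12
    have q23 : (y2 : ℝ) < y3 := by exact_mod_cast l23
    have q34 : (y3 : ℝ) < y4 := by exact_mod_cast l34
    set w1 : ℝ := ((y4 : ℝ) - y3) * (y4 - y2) * (y3 - y2) with hw1
    set w2 : ℝ := ((y4 : ℝ) - y3) * (y4 - y1) * (y3 - y1) with hw2
    set w3 : ℝ := ((y4 : ℝ) - y2) * (y4 - y1) * (y2 - y1) with hw3
    set w4 : ℝ := ((y3 : ℝ) - y2) * (y3 - y1) * (y2 - y1) with hw4
    have p1 : 0 < w1 := mul_pos (mul_pos (by linarith) (by linarith)) (by linarith)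
    have p2 : 0 < w2 := mul_pos (mul_pos (by linarith) (by linarith)) (by linarith)
    have p3 : 0 < w3 := mul_pos (mul_pos (by linarith) (by linarith)) (by linarith)
    have p4 : 0 < w4 := mul_pos (mul_pos (by linarith) (by linarith)) (by linarith)
    obtain ⟨ε, hε, e1, e2, e3, e4⟩ : ∃ ε : ℝ, 0 < ε ∧ ε * w1 ≤ h y1 - l y1 ∧
        ε * w2 ≤ u y2 - h y2 ∧ ε * w3 ≤ h y3 - l y3 ∧ ε * w4 ≤ u y4 - h y4 := by
      refine ⟨min (min ((h y1 - l y1) / w1) ((u y2 - h y2) / w2))
        (min ((h y3 - l y3) / w3) ((u y4 - h y4) / w4)), ?_, ?_, ?_, ?_, ?_⟩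
      · refine lt_min (lt_min ?_ ?_) (lt_min ?_ ?_)
        · exact div_pos (by linarith) p1
        · exact div_pos (by linarith) p2
        · exact div_pos (by linarith) p3
        · exact div_pos (by linarith) p4
      · rw [← le_div_iff₀ p1]
        exact (min_le_left _ _).trans (min_le_left _ _)
      · rw [← le_div_iff₀ p2]
        exact (min_le_left _ _).trans (min_le_right _ _)
      · rw [← le_div_iff₀ p3]
        exact (min_le_right _ _).trans (min_le_left _ _)
      · rw [← le_div_iff₀ p4]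
        exact (min_le_right _ _).trans (min_le_right _ _)
    set w : ℤ → ℝ := fun z => (if z = y1 then -(ε * w1) else 0) + (if z = y2 then ε * w2 else 0) +
      (if z = y3 then -(ε * w3) else 0) + (if z = y4 then ε * w4 else 0) with hw
    have hsum : ∀ F : ℤ → ℝ, ∑ z ∈ Icc m M, w z * F z =
        ε * (-(w1 * F y1) + w2 * F y2 - w3 * F y3 + w4 * F y4) := by
      intro F
      simp only [hw, add_mul, Finset.sum_add_distrib, ite_mul, zero_mul, Finset.sum_ite_eq',
        m1, m2, m3, m4, if_true]
      ring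
    have hgP : (fun z => h z + w z) ∈ lpxP m M l u f := by
      refine ⟨?_, ?_, ?_, ?_, ?_⟩
      · intro z hz
        have n1 : z ≠ y1 := fun e => hz (e ▸ m1)
        have n2 : z ≠ y2 := fun e => hz (e ▸ m2)
        have n3 : z ≠ y3 := fun e => hz (e ▸ m3)
        have n4 : z ≠ y4 := fun e => hz (e ▸ m4)
        simp only [hw, n1, n2, n3, n4, if_false, h0 z hz]
        norm_num
      · rw [Finset.sum_add_distrib, h1]
        have := hsum (fun _ => 1)
        simp only [mul_one] at this
        rw [this]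
        have : -w1 + w2 - w3 + w4 = 0 := by
          simp only [hw1, hw2, hw3, hw4]; ring
        rw [this]; ring
      · simp only [add_mul]
        rw [Finset.sum_add_distrib, h2, hsum (fun z => (z : ℝ))]
        have : -(w1 * y1) + w2 * y2 - w3 * y3 + w4 * y4 = 0 := by
          simp only [hw1, hw2, hw3, hw4]; ring
        rw [this]; ring
      · simp only [add_mul]
        rw [Finset.sum_add_distrib, h3, hsum (fun z => (z : ℝ) ^ 2)]
        have : -(w1 * (y1 : ℝ) ^ 2) + w2 * (y2 : ℝ) ^ 2 - w3 * (y3 : ℝ) ^ 2 + w4 * (y4 : ℝ) ^ 2 = 0 := by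
          simp only [hw1, hw2, hw3, hw4]; ring
        rw [this]; ring
      · refine le_trans (Finset.sum_le_sum fun z _ => ?_) h4
        show dR (l z) (u z) (h z + w z) ≤ dR (l z) (u z) (h z)
        by_cases n1 : z = y1
        · have : w z = -(ε * w1) := by
            subst n1
            simp only [hw, l12.ne, (l12.trans l23).ne, ((l12.trans l23).trans l34).ne, if_false,
              if_true]
            ring
          rw [this, n1]
          exact lpx_dR_mono _ _ _ _ (by linarith) (by positivity)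
        by_cases n2 : z = y2
        · have : w z = ε * w2 := by
            subst n2
            simp only [hw, l12.ne', l23.ne, (l23.trans l34).ne, if_false, if_true]
            ring
          rw [this, n2]
          exact lpx_dR_anti _ _ _ _ (by linarith) (by positivity)
        by_cases n3 : z = y3
        · have : w z = -(ε * w3) := by
            subst n3
            simp only [hw, (l12.trans l23).ne', l23.ne', l34.ne, if_false, if_true]
            ring
          rw [this, n3]
          exact lpx_dR_mono _ _ _ _ (by linarith) (by positivity)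
        by_cases n4 : z = y4
        · have : w z = ε * w4 := by
            subst n4
            simp only [hw, ((l12.trans l23).trans l34).ne', (l23.trans l34).ne', l34.ne', if_false,
              if_true]
            ring
          rw [this, n4]
          exact lpx_dR_anti _ _ _ _ (by linarith) (by positivity)
        have : w z = 0 := by
          simp only [hw, n1, n2, n3, n4, if_false]
          norm_num
        rw [this, add_zero]
    have h5 := hmax' _ hgP
    have h6 : T (fun z => h z + w z) = T h + ε * (-(w1 * (y1 : ℝ) ^ 3) + w2 * (y2 : ℝ) ^ 3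
        - w3 * (y3 : ℝ) ^ 3 + w4 * (y4 : ℝ) ^ 3) := by
      show ∑ z ∈ Icc m M, (h z + w z) * (z : ℝ) ^ 3 = _
      simp only [add_mul]
      rw [Finset.sum_add_distrib, hsum (fun z => (z : ℝ) ^ 3)]
    have h7 : -(w1 * (y1 : ℝ) ^ 3) + w2 * (y2 : ℝ) ^ 3
        - w3 * (y3 : ℝ) ^ 3 + w4 * (y4 : ℝ) ^ 3 =
        ((y4 : ℝ) - y3) * (y4 - y2) * (y4 - y1) * (y3 - y2) * (y3 - y1) * (y2 - y1) := by
      simp only [hw1, hw2, hw3, hw4]; ring
    have h8 : 0 < ((y4 : ℝ) - y3) * (y4 - y2) * (y4 - y1) * (y3 - y2) * (y3 - y1) * (y2 - y1) := by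
      have a1 : 0 < (y4 : ℝ) - y3 := by linarith
      have a2 : 0 < (y4 : ℝ) - y2 := by linarith
      have a3 : 0 < (y4 : ℝ) - y1 := by linarith
      have a4 : 0 < (y3 : ℝ) - y2 := by linarith
      have a5 : 0 < (y3 : ℝ) - y1 := by linarith
      have a6 : 0 < (y2 : ℝ) - y1 := by linarith
      positivity
    have h9 : T h = T g0 := hhT
    rw [h6, h7, h9] at h5
    have := mul_pos hε h8
    linarith
  · by_contra hcard
    push Not at hcard
    obtain ⟨t, hts, htc⟩ := Finset.exists_subset_card_eq (n := 6) (by omega : 6 ≤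
      ((Icc m M).filter (fun z => h z ≠ l z ∧ h z ≠ u z)).card)
    have haff : ∀ z : ℤ, ∃ σ : ℝ, ∃ δ : ℝ, 0 < δ ∧ (z ∈ t → ∀ x, |x| ≤ δ →
        dR (l z) (u z) (h z + x) = dR (l z) (u z) (h z) + σ * x) := by
      intro z
      by_cases hz : z ∈ t
      · have := (Finset.mem_filter.1 (hts hz)).2
        obtain ⟨σ, δ, hδ, H⟩ := lpx_dR_affine (l z) (u z) (h z) (hlu z) this.1 this.2
        exact ⟨σ, δ, hδ, fun _ => H⟩
      · exact ⟨0, 1, one_pos, fun h => absurd h hz⟩
    choose σ δ hδ H using haff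
    let vec : ℤ → (Fin 5 → ℝ) := fun z => ![1, (z : ℝ), (z : ℝ) ^ 2, (z : ℝ) ^ 3, σ z]
    have hinj : Function.Injective vec := by
      intro z z' hzz
      have := congrFun hzz 1
      simpa [vec] using this
    have hrank : Module.finrank ℝ (Fin 5 → ℝ) < (t.image vec).card := by
      rw [Finset.card_image_of_injective _ hinj, htc]
      simp
    obtain ⟨c, hc, e, he, hce⟩ := Module.exists_nontrivial_relation_of_finrank_lt_card hrank
    rw [Finset.sum_image (fun a _ b _ hab => hinj hab)] at hc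
    obtain ⟨z0, hz0, rfl⟩ := Finset.mem_image.1 he
    set v : ℤ → ℝ := fun z => if z ∈ t then c (vec z) else 0 with hv
    have htI : ∀ z ∈ t, z ∈ Icc m M := fun z hz => (Finset.mem_filter.1 (hts hz)).1
    have hvsum : ∀ F : ℤ → ℝ, ∑ z ∈ Icc m M, v z * F z = ∑ z ∈ t, c (vec z) * F z := by
      intro F
      simp only [hv, ite_mul, zero_mul]
      rw [← Finset.sum_filter]
      apply Finset.sum_congr _ fun _ _ => rfl
      ext z
      simp only [Finset.mem_filter]
      exact ⟨fun h => h.2, fun h => ⟨htI z h, h⟩⟩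
    have hcoord : ∀ i : Fin 5, ∑ z ∈ t, c (vec z) * vec z i = 0 := by
      intro i
      have := congrFun hc i
      simpa [Finset.sum_apply] using this
    have s0 : ∑ z ∈ Icc m M, v z = 0 := by
      have := hvsum (fun _ => 1)
      simp only [mul_one] at this
      rw [this]
      have := hcoord 0
      simpa [vec] using this
    have s1 : ∑ z ∈ Icc m M, v z * z = 0 := by
      rw [hvsum (fun z => (z : ℝ))]
      exact hcoord 1
    have s2 : ∑ z ∈ Icc m M, v z * (z : ℝ) ^ 2 = 0 := by
      rw [hvsum (fun z => (z : ℝ) ^ 2)]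
      exact hcoord 2
    have s3 : ∑ z ∈ Icc m M, v z * (z : ℝ) ^ 3 = 0 := by
      rw [hvsum (fun z => (z : ℝ) ^ 3)]
      exact hcoord 3
    have s4 : ∑ z ∈ Icc m M, v z * σ z = 0 := by
      rw [hvsum σ]
      exact hcoord 4
    have htn : t.Nonempty := ⟨z0, hz0⟩
    obtain ⟨ε, hε, hεv⟩ : ∃ ε : ℝ, 0 < ε ∧ ∀ z ∈ t, ε * |v z| ≤ δ z := by
      refine ⟨t.inf' htn (fun z => δ z / (1 + |v z|)), ?_, ?_⟩
      · rw [Finset.lt_inf'_iff]
        intro z _
        have := hδ z
        positivity
      · intro z hz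
        have h5 : t.inf' htn (fun z => δ z / (1 + |v z|)) ≤ δ z / (1 + |v z|) :=
          Finset.inf'_le _ hz
        have h6 : 0 < 1 + |v z| := by positivity
        rw [le_div_iff₀ h6] at h5
        refine le_trans (mul_le_mul_of_nonneg_left (by linarith : |v z| ≤ 1 + |v z|) ?_) h5
        rw [Finset.le_inf'_iff]
        intro z _
        have := hδ z
        positivity
    have key : ∀ s : ℝ, |s| = 1 → (fun z => h z + s * ε * v z) ∈
        (lpxP m M l u f ∩ {h | T h = T g0}) := by
      intro s hs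
      refine ⟨⟨?_, ?_, ?_, ?_, ?_⟩, ?_⟩
      · intro z hz
        have : z ∉ t := fun hh => hz (htI z hh)
        simp [h0 z hz, hv, this]
      · rw [Finset.sum_add_distrib, ← Finset.mul_sum, s0, h1]
        ring
      · simp only [add_mul, mul_assoc (s * ε)]
        rw [Finset.sum_add_distrib, ← Finset.mul_sum, s1, h2]
        ring
      · simp only [add_mul, mul_assoc (s * ε)]
        rw [Finset.sum_add_distrib, ← Finset.mul_sum, s2, h3]
        ring
      · have h5 : ∀ z ∈ Icc m M, dR (l z) (u z) (h z + s * ε * v z) =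
            dR (l z) (u z) (h z) + s * ε * (v z * σ z) := by
          intro z _
          by_cases hz : z ∈ t
          · rw [H z hz]
            · ring
            · rw [abs_mul, abs_mul, hs, one_mul, abs_of_pos hε]
              exact hεv z hz
          · simp [hv, hz]
        show ∑ z ∈ Icc m M, dR (l z) (u z) (h z + s * ε * v z) ≤ _
        rw [Finset.sum_congr rfl h5, Finset.sum_add_distrib, ← Finset.mul_sum, s4, mul_zero,
          add_zero]
        exact h4
      · show ∑ z ∈ Icc m M, (h z + s * ε * v z) * (z : ℝ) ^ 3 = T g0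
        simp only [add_mul, mul_assoc (s * ε)]
        rw [Finset.sum_add_distrib, ← Finset.mul_sum, s3, mul_zero, add_zero]
        exact hhT
    have k1 := key 1 (by norm_num)
    have k2 := key (-1) (by norm_num)
    have k3 := (hext _ k1 _ k2 ⟨1 / 2, 1 / 2, by norm_num, by norm_num, by norm_num, by
      ext z
      simp only [Pi.add_apply, Pi.smul_apply, smul_eq_mul]
      ring⟩).1
    have k4 := congrFun k3 z0
    have k5 : v z0 = c (vec z0) := by simp [hv, hz0]
    have k6 : ε * v z0 = 0 := by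
      have : h z0 + 1 * ε * v z0 = h z0 := k4
      linarith
    rcases mul_eq_zero.1 k6 with k7 | k7
    · exact hε.ne' k7
    · exact hce (k5 ▸ k7)

end GG73
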