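import Pool.Agent.H73.GG.Rnd
import Pool.Agent.H73.GG.Lpx

/-!
# SIMP: replace an integer deposit function by one of the form `L H L H` off few levels
-/

namespace GG73

open Finset

theorem first_hit (P : ℤ → Prop) (s M : ℤ) (hs : s ≤ M + 1) :
    ∃ y, s ≤ y ∧ y ≤ M + 1 ∧ (∀ z, s ≤ z → z < y → ¬ P z) ∧ (y ≤ M → P y) := by
  by_cases h : ∃ z, s ≤ z ∧ z ≤ M ∧ P z
  · obtain ⟨y, ⟨hy1, hy2, hy3⟩, hy4⟩ :=
      Int.exists_least_of_bdd (P := fun z => s ≤ z ∧ z ≤ M ∧ P z) ⟨s, fun z hz => hz.1⟩ h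
    refine ⟨y, hy1, by omega, fun z hz1 hz2 hz3 => ?_, fun _ => hy3⟩
    have := hy4 z ⟨hz1, by omega, hz3⟩
    omega
  · refine ⟨M + 1, hs, le_rfl, fun z hz1 hz2 hz3 => h ⟨z, hz1, by omega, hz3⟩, fun h' => ?_⟩
    omega

theorem dI_cast (a b v : ℤ) : ((dI a b v : ℤ) : ℝ) = dR a b v := by
  unfold dI dR
  push_cast
  rfl

theorem dR_lip (a b v w : ℝ) : dR a b v ≤ dR a b w + |v - w| := by
  unfold dR
  have h1 := abs_nonneg (v - w)
  have h2 := neg_abs_le (v - w)
  have h3 := le_abs_self (v - w)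
  have e0 : 0 ≤ max 0 (max (a - w) (w - b)) := le_max_left _ _
  have e1 : a - w ≤ max 0 (max (a - w) (w - b)) := (le_max_left _ _).trans (le_max_right _ _)
  have e2 : w - b ≤ max 0 (max (a - w) (w - b)) := (le_max_right _ _).trans (le_max_right _ _)
  refine max_le ?_ (max_le ?_ ?_) <;> linarith

theorem dI_lip (a b v w : ℤ) : dI a b v ≤ dI a b w + |v - w| := by
  have := dR_lip a b v w
  rw [← dI_cast, ← dI_cast] at this
  exact_mod_cast this

theorem lo_le_hi' (M Y z : ℤ) : lo M Y z ≤ hi M Y z := by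
  unfold hi lo
  split_ifs <;> norm_num

theorem neg_one_le_lo (M Y z : ℤ) : -1 ≤ lo M Y z := by
  unfold lo
  split_ifs <;> norm_num

theorem hi_le_one (M Y z : ℤ) : hi M Y z ≤ 1 := by
  unfold hi
  split_ifs <;> norm_num

theorem simp_exists (m M Y : ℤ) (hmM : m ≤ M) (f : ℤ → ℤ) :
    ∃ (F : ℤ → ℤ) (y1 y2 y3 : ℤ), (∑ z ∈ Icc m M, F z = ∑ z ∈ Icc m M, f z) ∧
      (∑ z ∈ Icc m M, F z * z = ∑ z ∈ Icc m M, f z * z) ∧
      (∑ z ∈ Icc m M, F z * z ^ 2 = ∑ z ∈ Icc m M, f z * z ^ 2) ∧
      (∑ z ∈ Icc m M, dI (lo M Y z) (hi M Y z) (F z)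
        ≤ ∑ z ∈ Icc m M, dI (lo M Y z) (hi M Y z) (f z) + 305) ∧
      ((Icc m M).filter
        (fun z => F z ≠ if pat y1 y2 y3 z then lo M Y z else hi M Y z)).card ≤ 28 := by
  classical
  obtain ⟨h, h0, h1, h2, hcost, hbad, hB⟩ :=
    lp_exists m M (fun z => (lo M Y z : ℝ)) (fun z => (hi M Y z : ℝ))
      (fun z => by exact_mod_cast lo_le_hi' M Y z) (fun z => by exact_mod_cast neg_one_le_lo M Y z)
      (fun z => by exact_mod_cast hi_le_one M Y z) (fun z => (f z : ℝ))
  set I := Icc m M with hI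
  set B := I.filter (fun z => h z ≠ (lo M Y z : ℝ) ∧ h z ≠ (hi M Y z : ℝ)) with hBdef
  set Z := I.filter (fun z => Int.fract (h z) ≠ 0) with hZdef
  have hZB : Z ⊆ B := by
    intro z hz
    rw [hZdef, Finset.mem_filter] at hz
    rw [hBdef, Finset.mem_filter]
    refine ⟨hz.1, fun h' => hz.2 ?_, fun h' => hz.2 ?_⟩ <;> rw [h'] <;> exact Int.fract_intCast _
  have hZc : Z.card ≤ 5 := (Finset.card_le_card hZB).trans hB
  have hsum : ∀ p : ℤ → ℝ, ∑ z ∈ Z, Int.fract (h z) * p z = ∑ z ∈ I, h z * p z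
      - ∑ z ∈ I, (⌊h z⌋ : ℝ) * p z := by
    intro p
    rw [← Finset.sum_sub_distrib, hZdef, Finset.sum_filter]
    apply Finset.sum_congr rfl
    intro z _
    by_cases hz : Int.fract (h z) = 0
    · simp only [ne_eq, hz, not_true_eq_false, if_false]
      have := Int.self_sub_floor (h z)
      rw [hz] at this
      rw [← sub_mul, this, zero_mul]
    · simp only [ne_eq, hz, not_false_eq_true, if_true]
      rw [← sub_mul, Int.self_sub_floor]
  obtain ⟨g, g0, g1, g2, gm, gc⟩ := round_exists m M hmM Z (Finset.filter_subset _ _) hZc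
    (fun z => Int.fract (h z)) (fun z _ => Int.fract_nonneg _) (fun z _ => Int.fract_lt_one _)
    (∑ z ∈ I, (f z - ⌊h z⌋)) (∑ z ∈ I, (f z - ⌊h z⌋) * z) (∑ z ∈ I, (f z - ⌊h z⌋) * z ^ 2)
    (by
      have := hsum (fun _ => 1)
      simp only [mul_one] at this
      rw [this, h0]
      push_cast
      rw [Finset.sum_sub_distrib])
    (by
      have := hsum (fun z => (z : ℝ))
      rw [this, h1]
      push_cast
      rw [← Finset.sum_sub_distrib]
      apply Finset.sum_congr rfl
      intro z _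
      ring)
    (by
      have := hsum (fun z => (z : ℝ) ^ 2)
      rw [this, h2]
      push_cast
      rw [← Finset.sum_sub_distrib]
      apply Finset.sum_congr rfl
      intro z _
      ring)
    (by
      rw [← Finset.sum_sub_distrib, even_iff_two_dvd]
      apply Finset.dvd_sum
      intro z _
      have : (2 : ℤ) ∣ z - z ^ 2 := by
        rcases Int.even_or_odd z with ⟨k, hk⟩ | ⟨k, hk⟩
        · exact ⟨k - 2 * k ^ 2, by rw [hk]; ring⟩
        · exact ⟨-(k + 2 * k ^ 2), by rw [hk]; ring⟩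
      have e : (f z - ⌊h z⌋) * z - (f z - ⌊h z⌋) * z ^ 2 = (f z - ⌊h z⌋) * (z - z ^ 2) := by ring
      rw [e]
      exact this.mul_left _)
  -- thresholds
  obtain ⟨y1, a1, a2, a3, a4⟩ := first_hit (fun z => (lo M Y z : ℝ) < h z) m M (by omega)
  obtain ⟨y2, b1, b2, b3, b4⟩ := first_hit (fun z => h z < (hi M Y z : ℝ)) (min (y1 + 1) (M + 1)) M
    (min_le_right _ _)
  obtain ⟨y3, c1, c2, c3, c4⟩ := first_hit (fun z => (lo M Y z : ℝ) < h z) (min (y2 + 1) (M + 1)) M
    (min_le_right _ _)
  have hbase : ∀ z ∈ I, z ≠ y1 → z ≠ y2 → z ≠ y3 → z ∉ B →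
      h z = ((if pat y1 y2 y3 z then lo M Y z else hi M Y z : ℤ) : ℝ) := by
    intro z hzI hz1 hz2 hz3 hzB
    have hzI' := Finset.mem_Icc.mp hzI
    have hlu : (lo M Y z : ℝ) ≤ hi M Y z := by exact_mod_cast lo_le_hi' M Y z
    have hor : h z = lo M Y z ∨ h z = hi M Y z := by
      by_contra hcon
      rw [not_or] at hcon
      exact hzB (Finset.mem_filter.mpr ⟨hzI, hcon⟩)
    rcases lt_or_ge z y1 with hlt1 | hge1
    · have hp : pat y1 y2 y3 z = true := by
        unfold pat
        simp [hlt1]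
      rw [hp, if_pos rfl]
      have := a3 z hzI'.1 hlt1
      rw [not_lt] at this
      rcases hor with h' | h'
      · exact h'
      · linarith
    · have hgt1 : y1 < z := lt_of_le_of_ne hge1 (Ne.symm hz1)
      rcases lt_or_ge z y2 with hlt2 | hge2
      · have hp : pat y1 y2 y3 z = false := by
          unfold pat
          rw [decide_eq_false_iff_not]
          omega
        rw [hp]
        simp only [Bool.false_eq_true, if_false]
        have := b3 z ((min_le_left _ _).trans (by omega)) hlt2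
        rw [not_lt] at this
        rcases hor with h' | h'
        · linarith
        · exact h'
      · have hgt2 : y2 < z := lt_of_le_of_ne hge2 (Ne.symm hz2)
        rcases lt_or_ge z y3 with hlt3 | hge3
        · have hp : pat y1 y2 y3 z = true := by
            unfold pat
            rw [decide_eq_true_iff]
            omega
          rw [hp, if_pos rfl]
          have := c3 z ((min_le_left _ _).trans (by omega)) hlt3
          rw [not_lt] at this
          rcases hor with h' | h'
          · exact h'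
          · linarith
        · have hgt3 : y3 < z := lt_of_le_of_ne hge3 (Ne.symm hz3)
          have hp : pat y1 y2 y3 z = false := by
            unfold pat
            rw [decide_eq_false_iff_not]
            omega
          rw [hp]
          simp only [Bool.false_eq_true, if_false]
          have h12 : y1 < y2 := by omega
          have h23 : y2 < y3 := by omega
          have hnot : ¬ (h z < hi M Y z) := by
            intro hlt
            exact hbad y1 (Finset.mem_Icc.mpr ⟨a1, by omega⟩) y2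
              (Finset.mem_Icc.mpr ⟨by omega, by omega⟩) y3
              (Finset.mem_Icc.mpr ⟨by omega, by omega⟩) z hzI h12 h23 hgt3
              (a4 (by omega)) (b4 (by omega)) (c4 (by omega)) hlt
          rw [not_lt] at hnot
          rcases hor with h' | h'
          · linarith
          · exact h'
  refine ⟨fun z => ⌊h z⌋ + g z, y1, y2, y3, ?_, ?_, ?_, ?_, ?_⟩
  · rw [Finset.sum_add_distrib, g0, ← Finset.sum_add_distrib]
    apply Finset.sum_congr rfl
    intro z _
    ring
  · have : ∀ z ∈ I, (⌊h z⌋ + g z) * z = ⌊h z⌋ * z + g z * z := fun z _ => by ring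
    rw [Finset.sum_congr rfl this, Finset.sum_add_distrib, g1, ← Finset.sum_add_distrib]
    apply Finset.sum_congr rfl
    intro z _
    ring
  · have : ∀ z ∈ I, (⌊h z⌋ + g z) * z ^ 2 = ⌊h z⌋ * z ^ 2 + g z * z ^ 2 := fun z _ => by ring
    rw [Finset.sum_congr rfl this, Finset.sum_add_distrib, g2, ← Finset.sum_add_distrib]
    apply Finset.sum_congr rfl
    intro z _
    ring
  · have s1 : ∑ z ∈ I, dI (lo M Y z) (hi M Y z) (⌊h z⌋ + g z)
        ≤ ∑ z ∈ I, dI (lo M Y z) (hi M Y z) ⌊h z⌋ + ∑ z ∈ I, |g z| := by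
      rw [← Finset.sum_add_distrib]
      apply Finset.sum_le_sum
      intro z _
      have := dI_lip (lo M Y z) (hi M Y z) (⌊h z⌋ + g z) ⌊h z⌋
      rwa [add_sub_cancel_left] at this
    have s2 : ((∑ z ∈ I, dI (lo M Y z) (hi M Y z) ⌊h z⌋ : ℤ) : ℝ)
        ≤ ∑ z ∈ I, dR (lo M Y z) (hi M Y z) (h z) + 5 := by
      push_cast
      have s3 : ∀ z ∈ I, ((dI (lo M Y z) (hi M Y z) ⌊h z⌋ : ℤ) : ℝ)
          ≤ dR (lo M Y z) (hi M Y z) (h z) + (if Int.fract (h z) ≠ 0 then 1 else 0) := by
        intro z _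
        rw [dI_cast]
        have e1 := dR_lip (lo M Y z) (hi M Y z) (⌊h z⌋ : ℝ) (h z)
        have e2 : |(⌊h z⌋ : ℝ) - h z| = Int.fract (h z) := by
          rw [abs_sub_comm, Int.self_sub_floor, abs_of_nonneg (Int.fract_nonneg _)]
        rw [e2] at e1
        by_cases hz : Int.fract (h z) = 0
        · simp only [ne_eq, hz, not_true_eq_false, if_false]
          rw [hz] at e1
          exact e1
        · simp only [ne_eq, hz, not_false_eq_true, if_true]
          have := Int.fract_lt_one (h z)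
          linarith
      refine (Finset.sum_le_sum s3).trans ?_
      rw [Finset.sum_add_distrib, Finset.sum_boole]
      have : ((Z.card : ℕ) : ℝ) ≤ 5 := by exact_mod_cast hZc
      have e : (I.filter (fun z => Int.fract (h z) ≠ 0)).card = Z.card := rfl
      rw [e]
      linarith
    have s4 : ∑ z ∈ I, dR (lo M Y z) (hi M Y z) (f z)
        = ((∑ z ∈ I, dI (lo M Y z) (hi M Y z) (f z) : ℤ) : ℝ) := by
      push_cast
      apply Finset.sum_congr rfl
      intro z _
      rw [dI_cast]
    rw [s4] at hcost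
    have s5 : ((∑ z ∈ I, dI (lo M Y z) (hi M Y z) ⌊h z⌋ : ℤ) : ℝ)
        ≤ ((∑ z ∈ I, dI (lo M Y z) (hi M Y z) (f z) : ℤ) : ℝ) + 5 := by linarith
    have s6 : ∑ z ∈ I, dI (lo M Y z) (hi M Y z) ⌊h z⌋
        ≤ ∑ z ∈ I, dI (lo M Y z) (hi M Y z) (f z) + 5 := by exact_mod_cast s5
    linarith
  · have hsub : I.filter (fun z => ⌊h z⌋ + g z ≠ if pat y1 y2 y3 z then lo M Y z else hi M Y z)
        ⊆ ({y1, y2, y3} ∪ B) ∪ I.filter (fun z => g z ≠ 0) := by
      intro z hz
      rw [Finset.mem_filter] at hz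
      by_contra hcon
      simp only [Finset.mem_union, Finset.mem_insert, Finset.mem_singleton, not_or,
        Finset.mem_filter, not_and, not_not] at hcon
      obtain ⟨⟨⟨hz1, hz2, hz3⟩, hzB⟩, hzg⟩ := hcon
      have e := hbase z hz.1 hz1 hz2 hz3 hzB
      apply hz.2
      rw [hzg hz.1, e, Int.floor_intCast, add_zero]
    refine (Finset.card_le_card hsub).trans ?_
    refine (Finset.card_union_le _ _).trans ?_
    have e1 := Finset.card_union_le ({y1, y2, y3} : Finset ℤ) B
    have e2 : ({y1, y2, y3} : Finset ℤ).card ≤ 3 := Finset.card_le_three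
    have e3 : (I.filter (fun z => g z ≠ 0)).card ≤ 20 := gc
    omega

end GG73
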