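import Pool.Agent.H73.GG.Defs

/-!
# TRN: the number of turning points
-/

namespace GG73

theorem le_mx_trn (w : List Lt) : ∀ y : ℤ, y ≤ mx w y := by
  induction w with
  | nil => intro y; exact le_refl _
  | cons l w ih =>
    intro y
    cases l
    · exact le_max_left _ _
    · exact le_max_left _ _
    · exact ih y
    · exact ih y

theorem mn_le_trn (w : List Lt) : ∀ y : ℤ, mn w y ≤ y := by
  induction w with
  | nil => intro y; exact le_refl _
  | cons l w ih =>
    intro y
    cases l
    · exact min_le_left _ _
    · exact min_le_left _ _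
    · exact ih y
    · exact ih y

/-- The invariant of the induction. -/
def TInv (m M y : ℤ) (o : Option Bool) (D : ℤ) : Prop :=
  m ≤ 0 ∧ 0 ≤ M ∧ m ≤ y ∧ y ≤ M ∧
  match o with
  | none => m = 0 ∧ M = 0 ∧ y = 0 ∧ 2 ≤ D
  | some true => m < y ∧ (m = 0 → 2 ≤ D) ∧ (M = 0 → 1 ≤ D) ∧ (0 < y → 1 ≤ D) ∧ 0 ≤ D
  | some false => y < M ∧ (m = 0 → 1 ≤ D) ∧ (M = 0 → 2 ≤ D) ∧ (y < 0 → 1 ≤ D) ∧ 0 ≤ D

theorem trn_gen (w : List Lt) : ∀ (m M y : ℤ) (o : Option Bool) (D : ℤ), TInv m M y o D →
    0 ≤ D + ((w.count .a : ℤ) + w.count .b) - 2 * (max M (mx w y) - M) - 2 * (m - min m (mn w y))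
      + |ht w y| - |y| - (trn w o : ℤ) := by
  induction w with
  | nil =>
    intro m M y o D h
    obtain ⟨h1, h2, h3, h4, h5⟩ := h
    have hD : 0 ≤ D := by
      rcases o with _ | _ | _
      · obtain ⟨_, _, _, h⟩ := h5; omega
      · obtain ⟨_, _, _, _, h⟩ := h5; exact h
      · obtain ⟨_, _, _, _, h⟩ := h5; exact h
    have e1 : max M y = M := max_eq_left h4
    have e2 : min m y = m := min_eq_left h3
    simp only [List.count_nil, mx, mn, ht, trn, e1, e2]
    push_cast
    linarith
  | cons l w ih =>
    intro m M y o D h
    have hmx := le_mx_trn w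
    have hmn := mn_le_trn w
    cases l
    · -- a
      have key := ih m (max M (y + 1)) (y + 1) (some true)
        (D + 1 - 2 * (max M (y + 1) - M) + |y + 1| - |y| - (if o = some false then 1 else 0)) ?_
      · have h1 := hmx (y + 1)
        have h2 := hmn (y + 1)
        obtain ⟨g1, g2, g3, g4, g5⟩ := h
        have c1 : (List.count Lt.a (Lt.a :: w) : ℤ) = List.count Lt.a w + 1 := by
          rw [List.count_cons_self]; push_cast; ring
        have c2 : (List.count Lt.b (Lt.a :: w) : ℤ) = List.count Lt.b w := by
          rw [List.count_cons_of_ne (by decide)]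
        rw [c1, c2]
        simp only [mx, mn, ht, trn]
        push_cast
        have e1 : max M (max y (mx w (y + 1))) = max (max M (y + 1)) (mx w (y + 1)) := by
          omega
        have e2 : min m (min y (mn w (y + 1))) = min m (mn w (y + 1)) := by
          omega
        rw [e1, e2]
        split_ifs at key ⊢ <;> linarith
      · obtain ⟨g1, g2, g3, g4, g5⟩ := h
        have a1 := abs_cases y
        have a2 := abs_cases (y + 1)
        refine ⟨g1, by omega, by omega, le_max_right _ _, ?_⟩
        rcases o with _ | _ | _
        · obtain ⟨q1, q2, q3, q4⟩ := g5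
          subst q1 q2 q3
          simp
          omega
        · obtain ⟨q1, q2, q3, q4, q5⟩ := g5
          simp only [if_true]
          refine ⟨by omega, fun _ => by omega, fun _ => by omega, fun _ => by omega, by omega⟩
        · obtain ⟨q1, q2, q3, q4, q5⟩ := g5
          have : ¬ ((some true : Option Bool) = some false) := by simp
          simp only [if_neg this]
          refine ⟨by omega, fun _ => by omega, fun _ => by omega, fun _ => by omega, by omega⟩
    · -- b
      have key := ih (min m (y - 1)) M (y - 1) (some false)
        (D + 1 - 2 * (m - min m (y - 1)) + |y - 1| - |y| - (if o = some true then 1 else 0)) ?_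
      · have h1 := hmx (y - 1)
        have h2 := hmn (y - 1)
        obtain ⟨g1, g2, g3, g4, g5⟩ := h
        have c1 : (List.count Lt.b (Lt.b :: w) : ℤ) = List.count Lt.b w + 1 := by
          rw [List.count_cons_self]; push_cast; ring
        have c2 : (List.count Lt.a (Lt.b :: w) : ℤ) = List.count Lt.a w := by
          rw [List.count_cons_of_ne (by decide)]
        rw [c1, c2]
        simp only [mx, mn, ht, trn]
        push_cast
        have e1 : max M (max y (mx w (y - 1))) = max M (mx w (y - 1)) := by
          omega
        have e2 : min m (min y (mn w (y - 1))) = min (min m (y - 1)) (mn w (y - 1)) := by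
          omega
        rw [e1, e2]
        split_ifs at key ⊢ <;> linarith
      · obtain ⟨g1, g2, g3, g4, g5⟩ := h
        have a1 := abs_cases y
        have a2 := abs_cases (y - 1)
        refine ⟨by omega, g2, min_le_right _ _, by omega, ?_⟩
        rcases o with _ | _ | _
        · obtain ⟨q1, q2, q3, q4⟩ := g5
          subst q1 q2 q3
          simp
          omega
        · obtain ⟨q1, q2, q3, q4, q5⟩ := g5
          have : ¬ ((some false : Option Bool) = some true) := by simp
          simp only [if_neg this]
          refine ⟨by omega, fun _ => by omega, fun _ => by omega, fun _ => by omega, by omega⟩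
        · obtain ⟨q1, q2, q3, q4, q5⟩ := g5
          simp only [if_true]
          refine ⟨by omega, fun _ => by omega, fun _ => by omega, fun _ => by omega, by omega⟩
    · -- c
      have key := ih m M y o D h
      have c1 : (List.count Lt.a (Lt.c :: w) : ℤ) = List.count Lt.a w := by
        rw [List.count_cons_of_ne (by decide)]
      have c2 : (List.count Lt.b (Lt.c :: w) : ℤ) = List.count Lt.b w := by
        rw [List.count_cons_of_ne (by decide)]
      rw [c1, c2]
      simpa only [mx, mn, ht, trn] using key
    · -- t
      have key := ih m M y o D h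
      have c1 : (List.count Lt.a (Lt.t :: w) : ℤ) = List.count Lt.a w := by
        rw [List.count_cons_of_ne (by decide)]
      have c2 : (List.count Lt.b (Lt.t :: w) : ℤ) = List.count Lt.b w := by
        rw [List.count_cons_of_ne (by decide)]
      rw [c1, c2]
      simpa only [mx, mn, ht, trn] using key

theorem trn_le (w : List Lt) :
    (trn w none : ℤ) ≤ ((w.count .a : ℤ) + w.count .b) - (2 * (mx w 0 - mn w 0) - |ht w 0|) + 2 := by
  have key := trn_gen w 0 0 0 none 2 ⟨le_refl _, le_refl _, le_refl _, le_refl _, rfl, rfl, rfl, le_refl _⟩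
  have h1 := le_mx_trn w 0
  have h2 := mn_le_trn w 0
  rw [max_eq_right h1, min_eq_right h2, abs_zero] at key
  linarith

end GG73
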