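import Pool.Agent.H73.GG.Defs

/-!
# WRD: a word with prescribed deposit function
-/

namespace GG73

open Finset

/-- `s'` can be reached from `s` by a word of length at most `L`. -/
def Reach (s s' : St) (L : ℤ) : Prop := ∃ w : List Lt, run w s = s' ∧ (w.length : ℤ) ≤ L

theorem Reach.trans {s s' s'' : St} {L L' : ℤ} (h : Reach s s' L) (h' : Reach s' s'' L') :
    Reach s s'' (L + L') := by
  obtain ⟨w, hw, hl⟩ := h
  obtain ⟨w', hw', hl'⟩ := h'
  refine ⟨w ++ w', ?_, ?_⟩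
  · unfold run at *
    rw [List.foldl_append, hw, hw']
  · rw [List.length_append]
    push_cast
    omega

theorem Reach.mono {s s' : St} {L L' : ℤ} (h : Reach s s' L) (hL : L ≤ L') : Reach s s' L' := by
  obtain ⟨w, hw, hl⟩ := h
  exact ⟨w, hw, hl.trans hL⟩

theorem Reach.congr {s : St} {e : Bool} {y p0 p1 p2 q0 q1 q2 : ℤ} {L L' : ℤ}
    (h : Reach s ⟨e, y, p0, p1, p2⟩ L) (h0 : p0 = q0) (h1 : p1 = q1) (h2 : p2 = q2)
    (hL : L = L') : Reach s ⟨e, y, q0, q1, q2⟩ L' := by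
  subst h0 h1 h2 hL
  exact h

theorem Reach.refl (s : St) : Reach s s 0 := ⟨[], rfl, by simp⟩

theorem Reach.one (s : St) (l : Lt) : Reach s (step s l) 1 := ⟨[l], rfl, by simp⟩

theorem reach_toggle (e e' : Bool) (y p0 p1 p2 : ℤ) :
    Reach ⟨e, y, p0, p1, p2⟩ ⟨e', y, p0, p1, p2⟩ (if e = e' then 0 else 1) := by
  by_cases h : e = e'
  · subst h
    rw [if_pos rfl]
    exact Reach.refl _
  · rw [if_neg h]
    have h2 : e' = !e := by cases e <;> cases e' <;> simp_all
    subst h2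
    exact Reach.one ⟨e, y, p0, p1, p2⟩ Lt.t

/-- a run of `n` stationary letters -/
theorem reach_c (e : Bool) (y : ℤ) (n : ℕ) : ∀ p0 p1 p2 : ℤ,
    Reach ⟨e, y, p0, p1, p2⟩
      ⟨e, y, p0 + (if e then 1 else -1) * n, p1 + (if e then 1 else -1) * n * y,
        p2 + (if e then 1 else -1) * n * y ^ 2⟩ n := by
  induction n with
  | zero =>
    intro p0 p1 p2
    simpa using Reach.refl (⟨e, y, p0, p1, p2⟩ : St)
  | succ n ih =>
    intro p0 p1 p2
    have h1 := Reach.one (⟨e, y, p0, p1, p2⟩ : St) Lt.c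
    have h2 := ih (p0 + (if e then 1 else -1)) (p1 + (if e then 1 else -1) * y)
      (p2 + (if e then 1 else -1) * y ^ 2)
    have h3 := h1.trans h2
    have e1 : (1 : ℤ) + (n : ℤ) = ((n + 1 : ℕ) : ℤ) := by push_cast; ring
    rw [e1] at h3
    convert h3 using 2 <;> push_cast <;> ring

/-- the stationary deposit at one level -/
theorem reach_stat (e : Bool) (y s p0 p1 p2 : ℤ) :
    Reach ⟨e, y, p0, p1, p2⟩ ⟨e, y, p0 + s, p1 + s * y, p2 + s * y ^ 2⟩
      (|s| + 2 * (if s = 0 then 0 else 1)) := by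
  rcases lt_trichotomy s 0 with h | h | h
  · rw [if_neg h.ne]
    have h1 := reach_toggle e false y p0 p1 p2
    have h2 := reach_c false y s.natAbs p0 p1 p2
    have h3 := (h1.trans h2).trans (reach_toggle false e y _ _ _)
    have hs : (s.natAbs : ℤ) = -s := by omega
    have hs2 : |s| = -s := abs_of_neg h
    rw [hs] at h3
    refine Reach.mono ?_ (L := (if e = false then 0 else 1) + -s + (if false = e then 0 else 1)) ?_
    · convert h3 using 2 <;> simp
    · rw [hs2]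
      split_ifs <;> omega
  · subst h
    simpa using Reach.refl (⟨e, y, p0, p1, p2⟩ : St)
  · rw [if_neg h.ne']
    have h1 := reach_toggle e true y p0 p1 p2
    have h2 := reach_c true y s.natAbs p0 p1 p2
    have h3 := (h1.trans h2).trans (reach_toggle true e y _ _ _)
    have hs : (s.natAbs : ℤ) = s := by omega
    have hs2 : |s| = s := abs_of_pos h
    rw [hs] at h3
    refine Reach.mono ?_ (L := (if e = true then 0 else 1) + s + (if true = e then 0 else 1)) ?_
    · convert h3 using 2 <;> simp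
    · rw [hs2]
      split_ifs <;> omega

/-- deposit of an upward crossing in mode `e` -/
def dU (e : Bool) : ℤ := if e then -1 else 0

/-- deposit of a downward crossing in mode `e` -/
def dD (e : Bool) : ℤ := if e then 0 else 1

/-- cost of a mode change between the levels `z` and `z + 1` -/
def tog (χ : ℤ → Bool) (z : ℤ) : ℤ := if χ z = χ (z + 1) then 0 else 1

theorem tog_nonneg (χ : ℤ → Bool) (z : ℤ) : 0 ≤ tog χ z := by
  unfold tog
  split_ifs <;> omega

theorem reach_up (χ : ℤ → Bool) (z p0 p1 p2 : ℤ) :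
    Reach ⟨χ z, z, p0, p1, p2⟩
      ⟨χ (z + 1), z + 1, p0 + dU (χ z), p1 + dU (χ z) * z, p2 + dU (χ z) * z ^ 2⟩
      (1 + tog χ z) :=
  (Reach.one (⟨χ z, z, p0, p1, p2⟩ : St) Lt.a).trans (reach_toggle _ _ _ _ _ _)

theorem reach_down (χ : ℤ → Bool) (z p0 p1 p2 : ℤ) :
    Reach ⟨χ (z + 1), z + 1, p0, p1, p2⟩
      ⟨χ z, z, p0 + dD (χ z), p1 + dD (χ z) * z, p2 + dD (χ z) * z ^ 2⟩
      (1 + tog χ z) := by
  have h1 := reach_toggle (χ (z + 1)) (χ z) (z + 1) p0 p1 p2
  have h2 := Reach.one (⟨χ z, z + 1, p0, p1, p2⟩ : St) Lt.b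
  have h3 := h1.trans h2
  have e1 : (if χ (z + 1) = χ z then (0 : ℤ) else 1) + 1 = 1 + tog χ z := by
    unfold tog
    by_cases h : χ z = χ (z + 1)
    · rw [if_pos h, if_pos h.symm]; ring
    · rw [if_neg h, if_neg (fun h' => h h'.symm)]
  rw [e1] at h3
  convert h3 using 2 <;> simp [step, St.bump, dD]

theorem Ico_succ_insert {a b : ℤ} (h : a ≤ b) : Ico a (b + 1) = insert b (Ico a b) := by
  ext x
  simp only [Finset.mem_Ico, Finset.mem_insert]
  omega

theorem sum_Ico_succ {a b : ℤ} (h : a ≤ b) (f : ℤ → ℤ) :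
    ∑ z ∈ Ico a (b + 1), f z = ∑ z ∈ Ico a b, f z + f b := by
  rw [Ico_succ_insert h, Finset.sum_insert (by simp), add_comm]

theorem reach_downrun (χ : ℤ → Bool) {x y : ℤ} (h : x ≤ y) : ∀ p0 p1 p2 : ℤ,
    Reach ⟨χ y, y, p0, p1, p2⟩
      ⟨χ x, x, p0 + ∑ z ∈ Ico x y, dD (χ z), p1 + ∑ z ∈ Ico x y, dD (χ z) * z,
        p2 + ∑ z ∈ Ico x y, dD (χ z) * z ^ 2⟩
      (∑ z ∈ Ico x y, (1 + tog χ z)) := by
  induction y, h using Int.leInduction with
  | base =>
    intro p0 p1 p2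
    simpa using Reach.refl (⟨χ x, x, p0, p1, p2⟩ : St)
  | succ y h ih =>
    intro p0 p1 p2
    have h1 := (reach_down χ y p0 p1 p2).trans (ih _ _ _)
    simp only [sum_Ico_succ h]
    exact h1.congr (by ring) (by ring) (by ring) (by ring)

theorem reach_uprun_s (χ : ℤ → Bool) (s : ℤ → ℤ) {x y : ℤ} (h : x ≤ y) (p0 p1 p2 : ℤ) :
    Reach ⟨χ x, x, p0, p1, p2⟩
      ⟨χ y, y, p0 + ∑ z ∈ Ico x y, (dU (χ z) + s z), p1 + ∑ z ∈ Ico x y, (dU (χ z) + s z) * z,
        p2 + ∑ z ∈ Ico x y, (dU (χ z) + s z) * z ^ 2⟩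
      (∑ z ∈ Ico x y, (1 + tog χ z + (|s z| + 2 * (if s z = 0 then 0 else 1)))) := by
  induction y, h using Int.leInduction with
  | base => simpa using Reach.refl (⟨χ x, x, p0, p1, p2⟩ : St)
  | succ y h ih =>
    have h1 := (ih.trans (reach_stat (χ y) y (s y) _ _ _)).trans (reach_up χ y _ _ _)
    simp only [sum_Ico_succ h]
    exact h1.congr (by ring) (by ring) (by ring) (by ring)

theorem reach_downrun_s (χ : ℤ → Bool) (s : ℤ → ℤ) {x y : ℤ} (h : x ≤ y) : ∀ p0 p1 p2 : ℤ,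
    Reach ⟨χ y, y, p0, p1, p2⟩
      ⟨χ x, x, p0 + ∑ z ∈ Ico x y, (dD (χ z) + s z), p1 + ∑ z ∈ Ico x y, (dD (χ z) + s z) * z,
        p2 + ∑ z ∈ Ico x y, (dD (χ z) + s z) * z ^ 2⟩
      (∑ z ∈ Ico x y, (1 + tog χ z + (|s z| + 2 * (if s z = 0 then 0 else 1)))) := by
  induction y, h using Int.leInduction with
  | base =>
    intro p0 p1 p2
    simpa using Reach.refl (⟨χ x, x, p0, p1, p2⟩ : St)
  | succ y h ih =>
    intro p0 p1 p2
    have h1 := ((reach_down χ y p0 p1 p2).trans (reach_stat (χ y) y (s y) _ _ _)).trans (ih _ _ _)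
    simp only [sum_Ico_succ h]
    exact h1.congr (by ring) (by ring) (by ring) (by ring)

theorem reach_uprun (χ : ℤ → Bool) {x y : ℤ} (h : x ≤ y) (p0 p1 p2 : ℤ) :
    Reach ⟨χ x, x, p0, p1, p2⟩
      ⟨χ y, y, p0 + ∑ z ∈ Ico x y, dU (χ z), p1 + ∑ z ∈ Ico x y, dU (χ z) * z,
        p2 + ∑ z ∈ Ico x y, dU (χ z) * z ^ 2⟩
      (∑ z ∈ Ico x y, (1 + tog χ z)) := by
  induction y, h using Int.leInduction with
  | base => simpa using Reach.refl (⟨χ x, x, p0, p1, p2⟩ : St)
  | succ y h ih =>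
    have h1 := ih.trans (reach_up χ y _ _ _)
    simp only [sum_Ico_succ h]
    exact h1.congr (by ring) (by ring) (by ring) (by ring)

theorem sum_eq_Icc {m M : ℤ} {A : Finset ℤ} (hA : A ⊆ Icc m M) (g : ℤ → ℤ) :
    ∑ z ∈ A, g z = ∑ z ∈ Icc m M, if z ∈ A then g z else 0 := by
  rw [Finset.sum_ite_mem, Finset.inter_eq_right.2 hA]

theorem sum_tog_le (y1 y2 y3 m M : ℤ) :
    ∑ z ∈ Ico m M, tog (pat y1 y2 y3) z ≤ 3 := by
  have h1 : ∀ z ∈ Ico m M, tog (pat y1 y2 y3) z ≤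
      if z ∈ ({y1 - 1, y2 - 1, y3 - 1} : Finset ℤ) then 1 else 0 := by
    intro z _
    unfold tog
    by_cases h : pat y1 y2 y3 z = pat y1 y2 y3 (z + 1)
    · rw [if_pos h]
      split_ifs <;> omega
    · rw [if_neg h, if_pos]
      simp only [Finset.mem_insert, Finset.mem_singleton]
      by_contra hc
      apply h
      unfold pat
      simp only [decide_eq_decide]
      omega
  refine (Finset.sum_le_sum h1).trans ?_
  rw [Finset.sum_ite_mem]
  simp only [Finset.sum_const, nsmul_eq_mul, mul_one]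
  have h2 : (Ico m M ∩ ({y1 - 1, y2 - 1, y3 - 1} : Finset ℤ)).card ≤ 3 :=
    (Finset.card_le_card Finset.inter_subset_right).trans Finset.card_le_three
  exact_mod_cast h2

/-- the deposit functions agree -/
theorem dep_eq {m M Y : ℤ} (hm : m ≤ 0) (hM : 0 ≤ M) (hmY : m ≤ Y) (hYM : Y ≤ M)
    (hY : 0 ≤ Y) (χ : ℤ → Bool) (s q : ℤ → ℤ) :
    ∑ z ∈ Ico m 0, dD (χ z) * q z + ∑ z ∈ Ico m M, (dU (χ z) + s z) * q z + s M * q M
      + ∑ z ∈ Ico Y M, dD (χ z) * q z =
    ∑ z ∈ Icc m M, ((if χ z then lo M Y z else hi M Y z) + s z) * q z := by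
  have hIcc : Icc m M = insert M (Ico m M) := by
    ext x
    simp only [Finset.mem_Icc, Finset.mem_insert, Finset.mem_Ico]
    omega
  have hA1 : Ico m 0 ⊆ Icc m M := by
    intro x
    simp only [Finset.mem_Icc, Finset.mem_Ico]
    omega
  have hA2 : Ico m M ⊆ Icc m M := by
    intro x
    simp only [Finset.mem_Icc, Finset.mem_Ico]
    omega
  have hA3 : Ico Y M ⊆ Icc m M := by
    intro x
    simp only [Finset.mem_Icc, Finset.mem_Ico]
    omega
  have hA4 : {M} ⊆ Icc m M := by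
    intro x
    simp only [Finset.mem_Icc, Finset.mem_singleton]
    omega
  have e4 : s M * q M = ∑ z ∈ ({M} : Finset ℤ), s z * q z := by simp
  rw [e4, sum_eq_Icc hA1, sum_eq_Icc hA2, sum_eq_Icc hA3, sum_eq_Icc hA4,
    ← Finset.sum_add_distrib, ← Finset.sum_add_distrib, ← Finset.sum_add_distrib]
  refine Finset.sum_congr rfl ?_
  intro z hz
  rw [Finset.mem_Icc] at hz
  simp only [Finset.mem_Ico, Finset.mem_singleton, lo, hi, dU, dD]
  cases χ z <;> simp only [Bool.false_eq_true, if_true, if_false] <;>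
    split_ifs <;> first | (exfalso; omega) | ring1

/-- the deposit functions agree, downward version -/
theorem dep_eq' {m M Y : ℤ} (hm : m ≤ 0) (hM : 0 ≤ M) (hmY : m ≤ Y) (hYM : Y ≤ M)
    (hY : Y < 0) (χ : ℤ → Bool) (s q : ℤ → ℤ) :
    ∑ z ∈ Ico 0 M, dU (χ z) * q z + s M * q M + ∑ z ∈ Ico m M, (dD (χ z) + s z) * q z
      + ∑ z ∈ Ico m Y, dU (χ z) * q z =
    ∑ z ∈ Icc m M, ((if χ z then lo M Y z else hi M Y z) + s z) * q z := by
  have hA1 : Ico 0 M ⊆ Icc m M := by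
    intro x
    simp only [Finset.mem_Icc, Finset.mem_Ico]
    omega
  have hA2 : Ico m M ⊆ Icc m M := by
    intro x
    simp only [Finset.mem_Icc, Finset.mem_Ico]
    omega
  have hA3 : Ico m Y ⊆ Icc m M := by
    intro x
    simp only [Finset.mem_Icc, Finset.mem_Ico]
    omega
  have hA4 : {M} ⊆ Icc m M := by
    intro x
    simp only [Finset.mem_Icc, Finset.mem_singleton]
    omega
  have e4 : s M * q M = ∑ z ∈ ({M} : Finset ℤ), s z * q z := by simp
  rw [e4, sum_eq_Icc hA1, sum_eq_Icc hA2, sum_eq_Icc hA3, sum_eq_Icc hA4,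
    ← Finset.sum_add_distrib, ← Finset.sum_add_distrib, ← Finset.sum_add_distrib]
  refine Finset.sum_congr rfl ?_
  intro z hz
  rw [Finset.mem_Icc] at hz
  simp only [Finset.mem_Ico, Finset.mem_singleton, lo, hi, dU, dD]
  cases χ z <;> simp only [Bool.false_eq_true, if_true, if_false] <;>
    split_ifs <;> first | (exfalso; omega) | ring1

theorem sum_one_add (x y : ℤ) (h : x ≤ y) (f : ℤ → ℤ) :
    ∑ z ∈ Ico x y, (1 + f z) = (y - x) + ∑ z ∈ Ico x y, f z := by
  rw [Finset.sum_add_distrib]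
  simp only [Finset.sum_const, nsmul_eq_mul, mul_one, Int.card_Ico]
  omega

theorem word_exists (m M Y : ℤ) (hm : m ≤ 0) (hM : 0 ≤ M) (hmY : m ≤ Y) (hYM : Y ≤ M)
    (y1 y2 y3 : ℤ) (s : ℤ → ℤ) (e : Bool) :
    ∃ w : List Lt,
      run w s0 = ⟨e, Y,
        ∑ z ∈ Icc m M, ((if pat y1 y2 y3 z then lo M Y z else hi M Y z) + s z),
        ∑ z ∈ Icc m M, ((if pat y1 y2 y3 z then lo M Y z else hi M Y z) + s z) * z,
        ∑ z ∈ Icc m M, ((if pat y1 y2 y3 z then lo M Y z else hi M Y z) + s z) * z ^ 2⟩ ∧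
      (w.length : ℤ) ≤ (2 * (M - m) - |Y|) + 8
        + ∑ z ∈ Icc m M, (|s z| + 2 * (if s z = 0 then 0 else 1)) := by
  set χ := pat y1 y2 y3 with hχ
  have hmM : m ≤ M := hm.trans hM
  have hIcc : Icc m M = insert M (Ico m M) := by
    ext x
    simp only [Finset.mem_Icc, Finset.mem_insert, Finset.mem_Ico]
    omega
  have hT : ∑ z ∈ Ico m M, tog χ z ≤ 3 := sum_tog_le y1 y2 y3 m M
  have hsub : ∀ a b : ℤ, m ≤ a → b ≤ M → ∀ c d : ℤ, m ≤ c → d ≤ M → b ≤ c →
      ∑ z ∈ Ico a b, tog χ z + ∑ z ∈ Ico c d, tog χ z ≤ ∑ z ∈ Ico m M, tog χ z := by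
    intro a b ha hb c d hc hd hbc
    rw [← Finset.sum_union]
    · refine Finset.sum_le_sum_of_subset_of_nonneg ?_ (fun z _ _ => tog_nonneg χ z)
      intro z
      simp only [Finset.mem_union, Finset.mem_Ico]
      omega
    · rw [Finset.disjoint_left]
      intro z
      simp only [Finset.mem_Ico]
      omega
  have hst : ∑ z ∈ Icc m M, (|s z| + 2 * (if s z = 0 then 0 else 1)) =
      ∑ z ∈ Ico m M, (|s z| + 2 * (if s z = 0 then 0 else 1)) +
        (|s M| + 2 * (if s M = 0 then 0 else 1)) := by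
    rw [hIcc, Finset.sum_insert (by simp), add_comm]
  have htg : ∀ a b : Bool, (if a = b then (0 : ℤ) else 1) ≤ 1 := by
    intro a b
    split_ifs <;> omega
  rcases le_or_gt 0 Y with hY | hY
  · have h := ((((reach_toggle false (χ 0) 0 0 0 0).trans
      (reach_downrun χ hm _ _ _)).trans (reach_uprun_s χ s hmM _ _ _)).trans
      (reach_stat (χ M) M (s M) _ _ _)).trans ((reach_downrun χ hYM _ _ _).trans
      (reach_toggle (χ Y) e _ _ _ _))
    obtain ⟨w, hw, hl⟩ := h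
    refine ⟨w, ?_, ?_⟩
    · rw [show s0 = (⟨false, 0, 0, 0, 0⟩ : St) from rfl, hw]
      have d0 := dep_eq hm hM hmY hYM hY χ s (fun _ => 1)
      have d1 := dep_eq hm hM hmY hYM hY χ s (fun z => z)
      have d2 := dep_eq hm hM hmY hYM hY χ s (fun z => z ^ 2)
      simp only [mul_one] at d0
      rw [← d0, ← d1, ← d2]
      ext <;> simp only <;> ring
    · refine hl.trans ?_
      rw [hst, abs_of_nonneg hY, sum_one_add _ _ hm, sum_one_add _ _ hYM]
      have e1 : ∑ z ∈ Ico m M, (1 + tog χ z + (|s z| + 2 * (if s z = 0 then 0 else 1))) =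
          (M - m) + ∑ z ∈ Ico m M, tog χ z +
            ∑ z ∈ Ico m M, (|s z| + 2 * (if s z = 0 then 0 else 1)) := by
        rw [Finset.sum_add_distrib, sum_one_add _ _ hmM]
      rw [e1]
      have h1 := hsub m 0 le_rfl hM Y M hmY le_rfl hY
      have h2 := htg false (χ 0)
      have h3 := htg (χ Y) e
      linarith
  · have h := ((((reach_toggle false (χ 0) 0 0 0 0).trans
      (reach_uprun χ hM _ _ _)).trans
      (reach_stat (χ M) M (s M) _ _ _)).trans (reach_downrun_s χ s hmM _ _ _)).trans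
      ((reach_uprun χ hmY _ _ _).trans (reach_toggle (χ Y) e _ _ _ _))
    obtain ⟨w, hw, hl⟩ := h
    refine ⟨w, ?_, ?_⟩
    · rw [show s0 = (⟨false, 0, 0, 0, 0⟩ : St) from rfl, hw]
      have d0 := dep_eq' hm hM hmY hYM hY χ s (fun _ => 1)
      have d1 := dep_eq' hm hM hmY hYM hY χ s (fun z => z)
      have d2 := dep_eq' hm hM hmY hYM hY χ s (fun z => z ^ 2)
      simp only [mul_one] at d0
      rw [← d0, ← d1, ← d2]
      ext <;> simp only <;> ring
    · refine hl.trans ?_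
      rw [hst, abs_of_neg hY, sum_one_add _ _ hM, sum_one_add _ _ hmY]
      have e1 : ∑ z ∈ Ico m M, (1 + tog χ z + (|s z| + 2 * (if s z = 0 then 0 else 1))) =
          (M - m) + ∑ z ∈ Ico m M, tog χ z +
            ∑ z ∈ Ico m M, (|s z| + 2 * (if s z = 0 then 0 else 1)) := by
        rw [Finset.sum_add_distrib, sum_one_add _ _ hmM]
      rw [e1]
      have h1 := hsub m Y le_rfl hYM 0 M hm le_rfl hY.le
      have h2 := htg false (χ 0)
      have h3 := htg (χ Y) e
      linarith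

end GG73
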