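import Pool.Agent.H73.GG.Waste
import Pool.Agent.H73.GG.Trn
import Pool.Agent.H73.GG.Chg
import Pool.Agent.H73.GG.Simp
import Pool.Agent.H73.GG.Wrd

/-!
# FIN: geodesic words have boundedly many letter changes
-/

namespace GG73

open Finset

theorem hi_sub_lo_le (M Y z : ℤ) : hi M Y z - lo M Y z ≤ 2 := by
  unfold hi lo
  split_ifs <;> norm_num

theorem lo_le_hi (M Y z : ℤ) : lo M Y z ≤ hi M Y z := by
  unfold hi lo
  split_ifs <;> norm_num

/-- The distance of an integer to an endpoint of the interval. -/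
theorem abs_sub_base_le (M Y z v : ℤ) (b : Bool) :
    |v - (if b then lo M Y z else hi M Y z)| ≤ dI (lo M Y z) (hi M Y z) v + 2 := by
  have h1 := hi_sub_lo_le M Y z
  have h2 := lo_le_hi M Y z
  have h3 : lo M Y z - v ≤ dI (lo M Y z) (hi M Y z) v := by
    unfold dI
    exact (le_max_left _ _).trans (le_max_right _ _)
  have h4 : v - hi M Y z ≤ dI (lo M Y z) (hi M Y z) v := by
    unfold dI
    exact (le_max_right _ _).trans (le_max_right _ _)
  rw [abs_le]
  cases b <;> simp only [Bool.false_eq_true, if_true, if_false] <;> constructor <;> linarith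

theorem dI_nonneg (l u v : ℤ) : 0 ≤ dI l u v := le_max_left _ _

/-- Every word can be replaced by a word with the same final state, of length at most the
minimal vertical length plus the cost of its deposit plus a constant. -/
theorem replace_word (w : List Lt) :
    ∃ w' : List Lt, run w' s0 = run w s0 ∧
      (w'.length : ℤ) ≤ (2 * (mx w 0 - mn w 0) - |ht w 0|)
        + ∑ z ∈ Icc (mn w 0) (mx w 0),
            dI (lo (mx w 0) (ht w 0) z) (hi (mx w 0) (ht w 0) z) (dep w false 0 z) + 425 := by
  have hm : mn w 0 ≤ 0 := mn_le w 0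
  have hM : 0 ≤ mx w 0 := le_mx w 0
  have hmY : mn w 0 ≤ ht w 0 := mn_le_ht w 0
  have hYM : ht w 0 ≤ mx w 0 := ht_le_mx w 0
  obtain ⟨F, y1, y2, y3, h0, h1, h2, hc, hn⟩ :=
    simp_exists (mn w 0) (mx w 0) (ht w 0) (hm.trans hM) (dep w false 0)
  set M := mx w 0 with hMdef
  set m := mn w 0 with hmdef
  set Y := ht w 0 with hYdef
  set base : ℤ → ℤ := fun z => if pat y1 y2 y3 z then lo M Y z else hi M Y z with hbase
  obtain ⟨w', hw', hl⟩ := word_exists m M Y hm hM hmY hYM y1 y2 y3 (fun z => F z - base z)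
    (run w s0).e
  refine ⟨w', ?_, ?_⟩
  · rw [hw']
    have e0 := run_m0 w s0 m M le_rfl le_rfl
    have e1 := run_m1 w s0 m M le_rfl le_rfl
    have e2 := run_m2 w s0 m M le_rfl le_rfl
    have ey := run_y w s0
    simp only [s0, zero_add] at e0 e1 e2 ey
    have hF : ∀ z, (if pat y1 y2 y3 z then lo M Y z else hi M Y z) + (F z - base z) = F z := by
      intro z
      simp only [hbase]
      ring
    simp only [hF]
    apply St.ext
    · rfl
    · exact ey.symm
    · change ∑ z ∈ Icc m M, F z = (run w ⟨false, 0, 0, 0, 0⟩).m0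
      rw [h0, e0]
    · change ∑ z ∈ Icc m M, F z * z = (run w ⟨false, 0, 0, 0, 0⟩).m1
      rw [h1, e1]
    · change ∑ z ∈ Icc m M, F z * z ^ 2 = (run w ⟨false, 0, 0, 0, 0⟩).m2
      rw [h2, e2]
  · have hs : ∑ z ∈ Icc m M, (|F z - base z| + 2 * (if F z - base z = 0 then 0 else 1))
        ≤ ∑ z ∈ Icc m M, (dI (lo M Y z) (hi M Y z) (F z)
          + 4 * (if F z ≠ base z then 1 else 0)) := by
      apply Finset.sum_le_sum
      intro z _
      by_cases hz : F z = base z
      · have := dI_nonneg (lo M Y z) (hi M Y z) (F z)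
        simp [hz]
        rw [← hz]
        exact this
      · have h5 := abs_sub_base_le M Y z (F z) (pat y1 y2 y3 z)
        have hz' : F z - base z ≠ 0 := sub_ne_zero.mpr hz
        simp only [hz', if_false, ne_eq, hz, not_false_eq_true, if_true]
        have h6 : |F z - base z| ≤ dI (lo M Y z) (hi M Y z) (F z) + 2 := h5
        linarith
    have hcard : ∑ z ∈ Icc m M, (4 * (if F z ≠ base z then (1 : ℤ) else 0)) ≤ 4 * 28 := by
      rw [← Finset.mul_sum, Finset.sum_boole]
      have : (((Icc m M).filter (fun z => F z ≠ base z)).card : ℤ) ≤ 28 := by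
        exact_mod_cast hn
      linarith
    have hs' := hs.trans_eq Finset.sum_add_distrib
    have hl' : (w'.length : ℤ) ≤ (2 * (M - m) - |Y|) + 8
        + ∑ z ∈ Icc m M, (|F z - base z| + 2 * (if F z - base z = 0 then 0 else 1)) := hl
    linarith

theorem chg_bounded : ∃ D : ℕ, ∀ w : List Lt,
    (∀ w' : List Lt, run w' s0 = run w s0 → w.length ≤ w'.length) → chg w ≤ D := by
  refine ⟨10000, fun w hgeo => ?_⟩
  obtain ⟨w', hw', hl⟩ := replace_word w
  obtain ⟨W, hW0, hlen, hprs, hab⟩ := waste w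
  have h1 : (w.length : ℤ) ≤ w'.length := by exact_mod_cast hgeo w' hw'
  have h2 : (w.count .t : ℤ) + W ≤ 425 := by linarith
  have h3 := trn_le w
  have h4 := chg_le w
  have h5 : (trn w none : ℤ) ≤ 2 * W + 2 := by linarith
  have h6 : (chg w : ℤ) ≤ 3 * (prs w + w.count .t + trn w none) + 2 := by exact_mod_cast h4
  have h7 : (0 : ℤ) ≤ w.count .t := by positivity
  have h8 : (chg w : ℤ) ≤ 10000 := by linarith
  exact_mod_cast h8

end GG73
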