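import Pool.Agent.H73.GG.Alg
import Pool.Agent.H73.GG.CntW
import Pool.Agent.H73.GG.Fin

/-!
# MAIN: polynomial geodesic growth
-/

namespace GG73

theorem gen_lift (l : List vE) (hl : ∀ x ∈ l, x ∈ S) : ∃ w : List Lt, w.map gen = l := by
  induction l with
  | nil => exact ⟨[], rfl⟩
  | cons x l ih =>
    obtain ⟨w, hw⟩ := ih (fun y hy => hl y (List.mem_cons_of_mem _ hy))
    obtain ⟨k, hk⟩ := (mem_S_iff x).mp (hl x List.mem_cons_self)
    exact ⟨k :: w, by simp [hw, hk]⟩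

theorem mem_map_gen (w : List Lt) : ∀ x ∈ w.map gen, x ∈ S := by
  intro x hx
  obtain ⟨l, _, rfl⟩ := List.mem_map.mp hx
  exact (mem_S_iff _).mpr ⟨l, rfl⟩

theorem growth_bound : ∃ D : ℕ, ∀ n : ℕ, (geodesicWords S n).Finite ∧
    geodesicGrowth S n ≤ (4 * (n + 1)) ^ (D + 1) := by
  obtain ⟨D, hD⟩ := chg_bounded
  refine ⟨D, fun n => ?_⟩
  obtain ⟨hfin, hcard⟩ := count_words D n
  have hsub : geodesicWords S n ⊆ (fun w : List Lt => w.map gen) '' {w : List Lt | w.length ≤ n ∧ chg w ≤ D} := by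
    rintro l ⟨⟨hl1, hl2⟩, hln⟩
    obtain ⟨w, rfl⟩ := gen_lift l hl1
    refine ⟨w, ⟨by simpa using hln, hD w ?_⟩, rfl⟩
    intro w' hw'
    have := hl2 (w'.map gen) (mem_map_gen w') (prod_eq_of_run_eq hw')
    simpa using this
  refine ⟨(hfin.image _).subset hsub, ?_⟩
  unfold geodesicGrowth
  calc (geodesicWords S n).ncard
      ≤ ((fun w : List Lt => w.map gen) '' {w : List Lt | w.length ≤ n ∧ chg w ≤ D}).ncard :=
        Set.ncard_le_ncard hsub (hfin.image _)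
    _ ≤ {w : List Lt | w.length ≤ n ∧ chg w ≤ D}.ncard := Set.ncard_image_le hfin
    _ ≤ (4 * (n + 1)) ^ (D + 1) := hcard

end GG73
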