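import Pool.Agent.H73.GG.Defs

/-!
# RND: integer functions with small mass and prescribed small moments
-/

namespace GG73

open Finset

namespace RND

/-- A list of weighted points of `[m, M]` seen as a function. -/
theorem list_fun (m M : ℤ) (L : List (ℤ × ℤ)) (hL : ∀ p ∈ L, m ≤ p.1 ∧ p.1 ≤ M) :
    ∃ g : ℤ → ℤ, (∀ F : ℤ → ℤ, ∑ z ∈ Icc m M, g z * F z = (L.map (fun p => p.2 * F p.1)).sum) ∧
      (∑ z ∈ Icc m M, |g z| ≤ (L.map (fun p => |p.2|)).sum) ∧
      ((Icc m M).filter (fun z => g z ≠ 0)).card ≤ L.length := by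
  induction L with
  | nil => exact ⟨fun _ => 0, by simp, by simp, by simp⟩
  | cons p L ih =>
    obtain ⟨g, hg1, hg2, hg3⟩ := ih (fun q hq => hL q (List.mem_cons_of_mem _ hq))
    have hp : p.1 ∈ Icc m M := by
      have := hL p List.mem_cons_self
      exact mem_Icc.2 this
    refine ⟨fun z => (if z = p.1 then p.2 else 0) + g z, ?_, ?_, ?_⟩
    · intro F
      simp only [add_mul, sum_add_distrib, hg1, List.map_cons, List.sum_cons]
      congr 1
      simp only [ite_mul, zero_mul]
      rw [sum_ite_eq' (Icc m M) p.1]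
      simp [hp]
    · have h1 : ∀ z ∈ Icc m M, |(if z = p.1 then p.2 else 0) + g z|
          ≤ (if z = p.1 then |p.2| else 0) + |g z| := by
        intro z _
        refine (abs_add_le _ _).trans ?_
        have : |(if z = p.1 then p.2 else 0)| = (if z = p.1 then |p.2| else 0) := by
          split_ifs <;> simp
        rw [this]
      refine (sum_le_sum h1).trans ?_
      rw [sum_add_distrib, sum_ite_eq' (Icc m M) p.1]
      simp only [hp, if_true, List.map_cons, List.sum_cons]
      linarith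
    · have hsub : (Icc m M).filter (fun z => (if z = p.1 then p.2 else 0) + g z ≠ 0) ⊆
          insert p.1 ((Icc m M).filter (fun z => g z ≠ 0)) := by
        intro z hz
        rw [mem_filter] at hz
        rw [mem_insert]
        by_cases h : z = p.1
        · exact Or.inl h
        · right
          rw [mem_filter]
          refine ⟨hz.1, ?_⟩
          have := hz.2
          simpa [h] using this
      refine (card_le_card hsub).trans ?_
      refine (card_insert_le _ _).trans ?_
      simp only [List.length_cons]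
      omega

/-- The arithmetic core. -/
theorem core (R X0 X1 X2 : ℤ) (hR : 0 ≤ R) (h0 : 0 ≤ X0) (h0' : X0 ≤ 5)
    (h1 : 0 ≤ X1) (h1' : X1 ≤ 5 * R) (h2 : 0 ≤ X2) (h2' : X2 ≤ 5 * R ^ 2) (hpar : Even (X1 - X2))
    (h3 : R ≤ 1 → X2 = X1) :
    ∃ L : List (ℤ × ℤ), (∀ p ∈ L, 0 ≤ p.1 ∧ p.1 ≤ R) ∧ L.length ≤ 20 ∧
      (L.map (fun p => |p.2|)).sum ≤ 300 ∧ (L.map (fun p => p.2)).sum = X0 ∧
      (L.map (fun p => p.2 * p.1)).sum = X1 ∧ (L.map (fun p => p.2 * p.1 ^ 2)).sum = X2 := by
  rcases lt_or_ge R 2 with hR2 | hR2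
  · have hX := h3 (by omega)
    rcases (by omega : R = 0 ∨ R = 1) with rfl | rfl
    · refine ⟨[(0, X0)], ?_, by simp, ?_, by simp, ?_, ?_⟩
      · intro p hp
        simp at hp
        subst hp
        simp
      · simp [abs_of_nonneg h0]; omega
      · simp; omega
      · simp; omega
    · refine ⟨[(0, X0), (0, -X1), (1, X1)], ?_, by simp, ?_, by simp, ?_, ?_⟩
      · intro p hp
        simp at hp
        rcases hp with rfl | rfl | rfl <;> simp
      · simp [abs_of_nonneg h0, abs_of_nonneg h1]; omega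
      · simp
      · simp; omega
  · -- main case
    set q := X1 / R with hq
    set r := X1 % R with hr
    have hRpos : 0 < R := by omega
    have hqr : R * q + r = X1 := by
      rw [hq, hr]; exact Int.mul_ediv_add_emod X1 R
    have hr0 : 0 ≤ r := Int.emod_nonneg _ (by omega)
    have hr1 : r < R := Int.emod_lt_of_pos _ hRpos
    have hq0 : 0 ≤ q := Int.ediv_nonneg h1 hR
    have hq5 : q ≤ 5 := by
      by_contra hcon
      push Not at hcon
      nlinarith
    have hDeven : Even (X2 - q * R ^ 2 - r ^ 2) := by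
      have e1 : X2 - q * R ^ 2 - r ^ 2 = -(X1 - X2) - (q * (R * (R - 1)) + r * (r - 1)) := by
        rw [← hqr]; ring
      have e2 : Even (R * (R - 1)) := Int.even_mul_pred_self R
      have e3 : Even (r * (r - 1)) := Int.even_mul_pred_self r
      rw [e1]
      exact (hpar.neg).sub ((e2.mul_left q).add e3)
    obtain ⟨D', hD'⟩ := hDeven
    set ρ := R / 2 with hρ
    have hρ1 : 1 ≤ ρ := by omega
    have hρR : 2 * ρ ≤ R := by omega
    have hRρ : R ≤ 3 * ρ := by omega
    set K := D' / ρ ^ 2 with hK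
    set D'' := D' % ρ ^ 2 with hD''
    have hρ2 : 0 < ρ ^ 2 := by positivity
    have hKD : ρ ^ 2 * K + D'' = D' := by
      rw [hK, hD'']; exact Int.mul_ediv_add_emod D' (ρ ^ 2)
    have hD0 : 0 ≤ D'' := Int.emod_nonneg _ (by omega)
    have hD1 : D'' < ρ ^ 2 := Int.emod_lt_of_pos _ hρ2
    set a := D'' / ρ with ha
    set b := D'' % ρ with hb
    have hab : ρ * a + b = D'' := by
      rw [ha, hb]; exact Int.mul_ediv_add_emod D'' ρ
    have hb0 : 0 ≤ b := Int.emod_nonneg _ (by omega)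
    have hb1 : b < ρ := Int.emod_lt_of_pos _ (by omega)
    have ha0 : 0 ≤ a := Int.ediv_nonneg hD0 (by omega)
    have ha1 : a < ρ := by
      by_contra hcon
      push Not at hcon
      nlinarith
    have hRsq : R ^ 2 ≤ 9 * ρ ^ 2 := by nlinarith
    have hDup : 2 * D' ≤ 5 * R ^ 2 := by
      have : 0 ≤ q * R ^ 2 := by positivity
      nlinarith [sq_nonneg r]
    have hDlo : -(5 * R ^ 2) ≤ 2 * D' := by
      have e1 : r ^ 2 ≤ r * R := by nlinarith
      have e2 : q * R ^ 2 + r * R = X1 * R := by rw [← hqr]; ring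
      have e3 : X1 * R ≤ 5 * R * R := mul_le_mul_of_nonneg_right h1' hR
      nlinarith
    have hKup : K ≤ 23 := by
      by_contra hcon
      push Not at hcon
      have : ρ ^ 2 * 24 ≤ ρ ^ 2 * K := mul_le_mul_of_nonneg_left (by omega) hρ2.le
      nlinarith
    have hKlo : -24 ≤ K := by
      by_contra hcon
      push Not at hcon
      have : ρ ^ 2 * K ≤ ρ ^ 2 * (-25) := mul_le_mul_of_nonneg_left (by omega) hρ2.le
      nlinarith
    have hKabs : |K| ≤ 24 := abs_le.2 ⟨by omega, by omega⟩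
    refine ⟨[(0, X0), (R, q), (0, -q), (r, 1), (0, -1), (2 * ρ, K), (ρ, -(2 * K)), (0, K),
      (ρ + a, 1), (ρ, -1), (a, -1), (0, 1), (b + 1, 1), (b, -1), (1, -1), (0, 1)],
      ?_, by simp, ?_, ?_, ?_, ?_⟩
    · intro p hp
      simp only [List.mem_cons, List.not_mem_nil, or_false] at hp
      rcases hp with rfl | rfl | rfl | rfl | rfl | rfl | rfl | rfl | rfl | rfl | rfl | rfl | rfl |
        rfl | rfl | rfl <;> constructor <;> simp only <;> omega
    · have e : |2 * K| = 2 * |K| := by rw [abs_mul]; norm_num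
      simp only [List.map_cons, List.map_nil, List.sum_cons, List.sum_nil, abs_neg, e, abs_one,
        abs_of_nonneg h0, abs_of_nonneg hq0]
      omega
    · simp only [List.map_cons, List.map_nil, List.sum_cons, List.sum_nil]
      ring
    · simp only [List.map_cons, List.map_nil, List.sum_cons, List.sum_nil]
      linear_combination hqr
    · simp only [List.map_cons, List.map_nil, List.sum_cons, List.sum_nil]
      linear_combination (-1 : ℤ) * hD' + 2 * hKD + 2 * hab

end RND

open RND in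
/-- `T k = ∑ z ∈ Z, θ z * z ^ k` integers, at most five points of `[m, M]`, weights in `[0,1)`, and
`T 1 - T 2` even: there is an integer function supported on at most `20` levels of `[m, M]`, of mass
at most `300`, with the same moments. -/
theorem round_exists (m M : ℤ) (hmM : m ≤ M) (Z : Finset ℤ) (hZ : Z ⊆ Icc m M) (hc : Z.card ≤ 5)
    (θ : ℤ → ℝ) (h0 : ∀ z ∈ Z, 0 ≤ θ z) (h1 : ∀ z ∈ Z, θ z < 1) (T0 T1 T2 : ℤ)
    (hT0 : ∑ z ∈ Z, θ z = T0) (hT1 : ∑ z ∈ Z, θ z * z = T1) (hT2 : ∑ z ∈ Z, θ z * z ^ 2 = T2)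
    (hpar : Even (T1 - T2)) :
    ∃ g : ℤ → ℤ, (∑ z ∈ Icc m M, g z = T0) ∧ (∑ z ∈ Icc m M, g z * z = T1) ∧
      (∑ z ∈ Icc m M, g z * z ^ 2 = T2) ∧ (∑ z ∈ Icc m M, |g z| ≤ 300) ∧
      ((Icc m M).filter (fun z => g z ≠ 0)).card ≤ 20 := by
  have hmem : ∀ z ∈ Z, (0 : ℝ) ≤ (z : ℝ) - m ∧ (z : ℝ) - m ≤ (M : ℝ) - m := by
    intro z hz
    have := mem_Icc.1 (hZ hz)
    have a1 : (m : ℝ) ≤ z := by exact_mod_cast this.1
    have a2 : (z : ℝ) ≤ M := by exact_mod_cast this.2
    constructor <;> linarith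
  have hcR : (Z.card : ℝ) ≤ 5 := by exact_mod_cast hc
  have hR0 : (0 : ℝ) ≤ (M : ℝ) - m := by
    have : (m : ℝ) ≤ M := by exact_mod_cast hmM
    linarith
  -- the shifted moments
  have hX1 : ((T1 - m * T0 : ℤ) : ℝ) = ∑ z ∈ Z, θ z * ((z : ℝ) - m) := by
    push_cast
    rw [← hT0, ← hT1, mul_sum, ← sum_sub_distrib]
    exact sum_congr rfl (fun z _ => by ring)
  have hX2 : ((T2 - 2 * m * T1 + m ^ 2 * T0 : ℤ) : ℝ) = ∑ z ∈ Z, θ z * ((z : ℝ) - m) ^ 2 := by
    push_cast
    rw [← hT0, ← hT1, ← hT2, mul_sum, mul_sum, ← sum_sub_distrib, ← sum_add_distrib]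
    exact sum_congr rfl (fun z _ => by ring)
  have bound : ∀ (f : ℤ → ℝ) (B : ℝ), 0 ≤ B → (∀ z ∈ Z, 0 ≤ f z ∧ f z ≤ B) →
      0 ≤ ∑ z ∈ Z, θ z * f z ∧ ∑ z ∈ Z, θ z * f z ≤ 5 * B := by
    intro f B hB hf
    constructor
    · exact sum_nonneg (fun z hz => mul_nonneg (h0 z hz) (hf z hz).1)
    · have : ∀ z ∈ Z, θ z * f z ≤ B := by
        intro z hz
        have a1 := h0 z hz
        have a2 := (h1 z hz).le
        have a3 := hf z hz
        nlinarith [mul_nonneg a1 a3.1, mul_nonneg (sub_nonneg.2 a2) a3.1]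
      calc ∑ z ∈ Z, θ z * f z ≤ ∑ z ∈ Z, B := sum_le_sum this
        _ = Z.card * B := by rw [sum_const, nsmul_eq_mul]
        _ ≤ 5 * B := mul_le_mul_of_nonneg_right hcR hB
  have b0 := bound (fun _ => 1) 1 zero_le_one (fun z _ => ⟨zero_le_one, le_refl _⟩)
  simp only [mul_one] at b0
  rw [hT0] at b0
  have b1 := bound (fun z => (z : ℝ) - m) ((M : ℝ) - m) hR0 hmem
  rw [← hX1] at b1
  have b2 := bound (fun z => ((z : ℝ) - m) ^ 2) (((M : ℝ) - m) ^ 2) (sq_nonneg _)
    (fun z hz => ⟨sq_nonneg _, by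
      have := hmem z hz
      exact pow_le_pow_left₀ this.1 this.2 2⟩)
  rw [← hX2] at b2
  have hsmall : M - m ≤ 1 → T2 - 2 * m * T1 + m ^ 2 * T0 = T1 - m * T0 := by
    intro hs
    have : ((T2 - 2 * m * T1 + m ^ 2 * T0 : ℤ) : ℝ) = ((T1 - m * T0 : ℤ) : ℝ) := by
      rw [hX1, hX2]
      refine sum_congr rfl (fun z hz => ?_)
      have hz' := mem_Icc.1 (hZ hz)
      rcases (by omega : z = m ∨ z = m + 1) with rfl | rfl
      · simp
      · push_cast; ring
    exact_mod_cast this
  obtain ⟨L, hL1, hL2, hL3, hL4, hL5, hL6⟩ := core (M - m) T0 (T1 - m * T0)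
    (T2 - 2 * m * T1 + m ^ 2 * T0) (by omega) (by exact_mod_cast b0.1) (by exact_mod_cast b0.2)
    (by exact_mod_cast b1.1) (by exact_mod_cast b1.2) (by exact_mod_cast b2.1)
    (by exact_mod_cast b2.2)
    (by
      have e1 : T1 - m * T0 - (T2 - 2 * m * T1 + m ^ 2 * T0)
          = (T1 - T2) + 2 * (m * T1) - m * (m + 1) * T0 := by ring
      rw [e1]
      exact (hpar.add (even_two_mul _)).sub ((Int.even_mul_succ_self m).mul_right _))
    hsmall
  obtain ⟨g, hg1, hg2, hg3⟩ := list_fun m M (L.map (fun p => (p.1 + m, p.2))) (by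
    intro p hp
    rw [List.mem_map] at hp
    obtain ⟨p', hp', rfl⟩ := hp
    have := hL1 p' hp'
    constructor <;> simp only <;> omega)
  refine ⟨g, ?_, ?_, ?_, ?_, ?_⟩
  · have := hg1 (fun _ => 1)
    simp only [mul_one, List.map_map, Function.comp_def] at this
    rw [this, hL4]
  · have := hg1 (fun z => z)
    rw [this]
    simp only [List.map_map, Function.comp_def]
    have e : (L.map (fun p => p.2 * (p.1 + m))).sum
        = (L.map (fun p => p.2 * p.1)).sum + m * (L.map (fun p => p.2)).sum := by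
      clear hL1 hL2 hL3 hL4 hL5 hL6 hg1 hg2 hg3 this
      induction L with
      | nil => simp
      | cons p L ih => simp only [List.map_cons, List.sum_cons, ih]; ring
    rw [e, hL4, hL5]; ring
  · have := hg1 (fun z => z ^ 2)
    rw [this]
    simp only [List.map_map, Function.comp_def]
    have e : (L.map (fun p => p.2 * (p.1 + m) ^ 2)).sum
        = (L.map (fun p => p.2 * p.1 ^ 2)).sum + 2 * m * (L.map (fun p => p.2 * p.1)).sum
          + m ^ 2 * (L.map (fun p => p.2)).sum := by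
      clear hL1 hL2 hL3 hL4 hL5 hL6 hg1 hg2 hg3 this
      induction L with
      | nil => simp
      | cons p L ih => simp only [List.map_cons, List.sum_cons, ih]; ring
    rw [e, hL4, hL5, hL6]; ring
  · refine hg2.trans ?_
    simp only [List.map_map, Function.comp_def]
    exact hL3
  · refine hg3.trans ?_
    rw [List.length_map]
    exact hL2

end GG73
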