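import Pool.Agent.H73.GG.Cnt
import Pool.Agent.H73.GG.Cross

/-!
# WASTE: the length formula
-/

namespace GG73

open Finset

theorem waste_level (w : List Lt) (z : ℤ) (h1 : mn w 0 ≤ z) (h2 : z ≤ mx w 0) :
    ∃ k : ℤ, 0 ≤ k ∧ up w false 0 z = k - lo (mx w 0) (ht w 0) z ∧
      dn w false 0 z = hi (mx w 0) (ht w 0) z + k := by
  have hf := flow w false 0 z
  have hY1 := mn_le_ht w 0
  have hY2 := ht_le_mx w 0
  have hM := le_mx w 0
  have hup0 : 0 ≤ up w false 0 z := by unfold up; positivity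
  have hdn0 : 0 ≤ dn w false 0 z := by unfold dn; positivity
  unfold lo hi
  rcases eq_or_lt_of_le h2 with h3 | h3
  · have h4 := up_top w false 0 z h3.ge
    have h5 := dn_top w false 0 z h3.ge
    refine ⟨0, le_rfl, ?_, ?_⟩
    · rw [h4, if_pos h3]; rfl
    · rw [h5, if_pos h3]; rfl
  · rw [if_neg h3.ne, if_neg h3.ne]
    by_cases hc1 : 0 ≤ z ∧ z < ht w 0
    · have hc2 : ¬ (ht w 0 ≤ z ∧ z < 0) := by omega
      rw [if_pos hc1, if_neg hc2] at hf
      rw [if_pos hc1, if_neg hc2]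
      exact ⟨dn w false 0 z, hdn0, by omega, by omega⟩
    · by_cases hc2 : ht w 0 ≤ z ∧ z < 0
      · rw [if_neg hc1, if_pos hc2] at hf
        rw [if_neg hc1, if_pos hc2]
        exact ⟨up w false 0 z, hup0, by omega, by omega⟩
      · rw [if_neg hc1, if_neg hc2] at hf
        rw [if_neg hc1, if_neg hc2]
        refine ⟨up w false 0 z - 1, ?_, by omega, by omega⟩
        rcases le_or_gt 0 z with h4 | h4
        · have := up_pos w false 0 z h4 h3
          omega
        · have := dn_pos w false 0 z h1 h4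
          omega

theorem waste_arith (a0 a1 b0 b1 c0 c1 k l h : ℤ) (ha0 : 0 ≤ a0) (ha1 : 0 ≤ a1) (hb0 : 0 ≤ b0)
    (hb1 : 0 ≤ b1) (hc0 : 0 ≤ c0) (hc1 : 0 ≤ c1) (hk : 0 ≤ k) (ha : a0 + a1 = k - l)
    (hb : b0 + b1 = h + k) :
    k ≤ a0 + a1 + (b0 + b1) + (c0 + c1) - (h - l) - dI l h (b0 + c1 - a1 - c0) ∧
      min c0 a0 + min b0 c0 + min c1 a1 + min b1 c1 ≤
        4 * (a0 + a1 + (b0 + b1) + (c0 + c1) - (h - l) - dI l h (b0 + c1 - a1 - c0)) := by
  unfold dI
  omega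

theorem waste_sum_ind (m M a b : ℤ) (h1 : m ≤ a) (h2 : b ≤ M) (hab : a ≤ b) :
    ∑ z ∈ Icc m M, (if a ≤ z ∧ z < b then (1 : ℤ) else 0) = b - a := by
  rw [Finset.sum_ite, Finset.sum_const_zero, add_zero, Finset.sum_const, nsmul_eq_mul, mul_one]
  have h3 : (Icc m M).filter (fun z => a ≤ z ∧ z < b) = Ico a b := by
    ext z
    simp only [Finset.mem_filter, Finset.mem_Icc, Finset.mem_Ico]
    omega
  rw [h3, Int.card_Ico, Int.toNat_of_nonneg (by omega)]

theorem waste_sum (m M Y : ℤ) (h1 : m ≤ 0) (h2 : 0 ≤ M) (h3 : m ≤ Y) (h4 : Y ≤ M) :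
    ∑ z ∈ Icc m M, (hi M Y z - lo M Y z) = 2 * (M - m) - |Y| := by
  have h5 : ∀ z ∈ Icc m M, hi M Y z - lo M Y z =
      2 * (if m ≤ z ∧ z < M then (1 : ℤ) else 0) -
        (if min 0 Y ≤ z ∧ z < max 0 Y then (1 : ℤ) else 0) := by
    intro z hz
    rw [Finset.mem_Icc] at hz
    unfold hi lo
    split_ifs <;> omega
  rw [Finset.sum_congr rfl h5, Finset.sum_sub_distrib, ← Finset.mul_sum,
    waste_sum_ind m M m M le_rfl le_rfl (by omega),
    waste_sum_ind m M (min 0 Y) (max 0 Y) (by omega) (by omega) (by omega)]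
  rcases abs_cases Y with ⟨h6, h7⟩ | ⟨h6, h7⟩ <;> omega

theorem waste (w : List Lt) :
    ∃ W : ℤ, 0 ≤ W ∧
      (w.length : ℤ) = w.count .t + (2 * (mx w 0 - mn w 0) - |ht w 0|)
        + ∑ z ∈ Icc (mn w 0) (mx w 0),
            dI (lo (mx w 0) (ht w 0) z) (hi (mx w 0) (ht w 0) z) (dep w false 0 z) + W ∧
      (prs w : ℤ) ≤ 4 * W ∧
      ((w.count .a : ℤ) + w.count .b) ≤ (2 * (mx w 0 - mn w 0) - |ht w 0|) + 2 * W := by
  have hsum := waste_sum (mn w 0) (mx w 0) (ht w 0) (mn_le w 0) (le_mx w 0) (mn_le_ht w 0)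
    (ht_le_mx w 0)
  let ws : ℤ → ℤ := fun z => up w false 0 z + dn w false 0 z + sc w false 0 z
    - (hi (mx w 0) (ht w 0) z - lo (mx w 0) (ht w 0) z)
    - dI (lo (mx w 0) (ht w 0) z) (hi (mx w 0) (ht w 0) z) (dep w false 0 z)
  have hlev : ∀ z ∈ Icc (mn w 0) (mx w 0), 0 ≤ ws z ∧
      (min (cnt .c false z w false 0 : ℤ) (cnt .a false z w false 0)
        + min (cnt .b false z w false 0 : ℤ) (cnt .c false z w false 0)
        + min (cnt .c true z w false 0 : ℤ) (cnt .a true z w false 0)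
        + min (cnt .b true z w false 0 : ℤ) (cnt .c true z w false 0)) ≤ 4 * ws z ∧
      up w false 0 z + dn w false 0 z ≤
        (hi (mx w 0) (ht w 0) z - lo (mx w 0) (ht w 0) z) + 2 * ws z := by
    intro z hz
    rw [Finset.mem_Icc] at hz
    obtain ⟨k, hk, hu, hd⟩ := waste_level w z hz.1 hz.2
    have h := waste_arith (cnt .a false z w false 0) (cnt .a true z w false 0)
      (cnt .b false z w false 0) (cnt .b true z w false 0) (cnt .c false z w false 0)
      (cnt .c true z w false 0) k (lo (mx w 0) (ht w 0) z) (hi (mx w 0) (ht w 0) z)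
      (by positivity) (by positivity) (by positivity) (by positivity) (by positivity)
      (by positivity) hk hu hd
    obtain ⟨h1, h2⟩ := h
    refine ⟨?_, ?_, ?_⟩
    · exact hk.trans h1
    · exact h2
    · rw [hu, hd]
      have h3 : k ≤ ws z := h1
      linarith
  refine ⟨∑ z ∈ Icc (mn w 0) (mx w 0), ws z, Finset.sum_nonneg fun z hz => (hlev z hz).1, ?_, ?_, ?_⟩
  · rw [len_eq w false 0 (mn w 0) (mx w 0) le_rfl le_rfl, ← hsum, add_assoc, add_assoc,
      ← Finset.sum_add_distrib, ← Finset.sum_add_distrib]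
    congr 1
    refine Finset.sum_congr rfl fun z _ => ?_
    simp only [ws]
    ring
  · refine (prs_le w false 0 (mn w 0) (mx w 0) le_rfl le_rfl).trans ?_
    rw [Finset.mul_sum]
    exact Finset.sum_le_sum fun z hz => (hlev z hz).2.1
  · rw [ab_eq w false 0 (mn w 0) (mx w 0) le_rfl le_rfl, ← hsum, Finset.mul_sum,
      ← Finset.sum_add_distrib]
    exact Finset.sum_le_sum fun z hz => (hlev z hz).2.2

end GG73
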